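import Mathlib

/-!
Lattice part: short fractions `f / g ≡ A (mod M)`.
-/

set_option autoImplicit false

namespace Pool.Agent.Y540.Nad

open Finset

/-- a fraction `f / g` in lowest terms with denominator prime to `N` and `f ≡ g A (mod M)` -/
def Good (N : ℕ) (M A f g : ℤ) : Prop :=
  0 < g ∧ Int.gcd f g = 1 ∧ Int.gcd g N = 1 ∧ M ∣ g * A - f

/-- sup norm -/
def sn (f g : ℤ) : ℕ := max f.natAbs g.natAbs

/-- least size of a good fraction -/
noncomputable def sz (N : ℕ) (M A : ℤ) : ℕ := sInf {s | ∃ f g, Good N M A f g ∧ sn f g = s}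

/-- length of a shortest nonzero vector of the lattice `f ≡ g A (mod M)` -/
noncomputable def l1 (M A : ℤ) : ℕ :=
  sInf {s | ∃ f g : ℤ, (f ≠ 0 ∨ g ≠ 0) ∧ M ∣ g * A - f ∧ sn f g = s}

theorem sz_spec (N : ℕ) (M A : ℤ) : ∃ f g, Good N M A f g ∧ sn f g = sz N M A := by
  have h : {s | ∃ f g, Good N M A f g ∧ sn f g = s}.Nonempty :=
    ⟨_, A, 1, ⟨one_pos, by simp, by simp, by simp⟩, rfl⟩
  exact Nat.sInf_mem h

theorem sz_le {N : ℕ} {M A f g : ℤ} (h : Good N M A f g) : sz N M A ≤ sn f g :=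
  Nat.sInf_le ⟨f, g, h, rfl⟩

theorem sz_pos (N : ℕ) (M A : ℤ) : 1 ≤ sz N M A := by
  obtain ⟨f, g, h, hs⟩ := sz_spec N M A
  rw [← hs]
  unfold sn
  have := h.1
  omega

theorem l1_spec (M A : ℤ) : ∃ f g : ℤ, (f ≠ 0 ∨ g ≠ 0) ∧ M ∣ g * A - f ∧ sn f g = l1 M A := by
  have h : {s | ∃ f g : ℤ, (f ≠ 0 ∨ g ≠ 0) ∧ M ∣ g * A - f ∧ sn f g = s}.Nonempty :=
    ⟨_, A, 1, Or.inr one_ne_zero, by simp, rfl⟩
  exact Nat.sInf_mem h

theorem l1_le {M A f g : ℤ} (h : f ≠ 0 ∨ g ≠ 0) (h2 : M ∣ g * A - f) : l1 M A ≤ sn f g :=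
  Nat.sInf_le ⟨f, g, h, h2, rfl⟩

theorem l1_pos (M A : ℤ) : 1 ≤ l1 M A := by
  obtain ⟨f, g, h, -, hs⟩ := l1_spec M A
  rw [← hs]
  unfold sn
  omega

/-! ### counting -/

theorem count_sz (N n Y : ℕ) (hY : 1 ≤ Y) :
    ((range (N ^ n)).filter (fun A : ℕ => sz N ((N ^ n : ℕ) : ℤ) A ≤ Y)).card ≤ 3 * Y ^ 2 := by
  choose F G hG hs using fun A : ℕ => sz_spec N ((N ^ n : ℕ) : ℤ) (A : ℤ)
  have hcard : (Icc (-(Y : ℤ)) Y ×ˢ Icc (1 : ℤ) Y).card ≤ 3 * Y ^ 2 := by
    rw [card_product, Int.card_Icc, Int.card_Icc]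
    have e1 : ((Y : ℤ) + 1 - -(Y : ℤ)).toNat = 2 * Y + 1 := by omega
    have e2 : ((Y : ℤ) + 1 - 1).toNat = Y := by omega
    rw [e1, e2]
    nlinarith
  refine le_trans (card_le_card_of_injOn (fun A => (F A, G A)) ?_ ?_) hcard
  · intro A hA
    simp only [coe_filter, Set.mem_ofPred_eq] at hA
    have h1 := hs A
    have h2 := (hG A).1
    have h3 := hA.2
    rw [← h1] at h3
    unfold sn at h3
    simp only [coe_product, Set.mem_prod, coe_Icc, Set.mem_Icc]
    omega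
  · intro A hA B hB hAB
    simp only [coe_filter, Set.mem_ofPred_eq, mem_range] at hA hB
    simp only [Prod.mk.injEq] at hAB
    have h1 := (hG A).2.2.2
    have h2 := (hG B).2.2.2
    rw [← hAB.1, ← hAB.2] at h2
    have h3 : ((N ^ n : ℕ) : ℤ) ∣ G A * ((A : ℤ) - B) := by
      have := dvd_sub h1 h2
      have e : G A * (A : ℤ) - F A - (G A * B - F A) = G A * ((A : ℤ) - B) := by ring
      rwa [e] at this
    have h4 : IsCoprime ((N ^ n : ℕ) : ℤ) (G A) := by
      have := (hG A).2.2.1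
      have h5 : IsCoprime (G A) (N : ℤ) := Int.isCoprime_iff_gcd_eq_one.2 this
      push_cast
      exact (h5.pow_right).symm
    have h5 := h4.dvd_of_dvd_mul_left h3
    have h6 : (A : ℤ) - B = 0 := by
      apply Int.eq_zero_of_abs_lt_dvd h5
      have := hA.1
      have := hB.1
      rw [abs_lt]
      constructor <;> omega
    omega

theorem count_l1 (M Y : ℕ) (hY : 1 ≤ Y) :
    ((range M).filter (fun A : ℕ => l1 (M : ℤ) A ≤ Y)).card ≤ 6 * Y ^ 2 := by
  classical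
  rcases Nat.lt_or_ge Y M with hYM | hYM
  swap
  · refine (card_filter_le _ _).trans ?_
    rw [card_range]
    nlinarith
  have key : ∀ A : ℕ, ∃ q : ℕ × ℕ × ℕ, A < M → l1 (M : ℤ) A ≤ Y →
      (1 ≤ q.1 ∧ q.1 ≤ Y ∧ q.2.1 ≤ q.1 ∧
      ∃ f : ℤ, |f| ≤ Y ∧ (q.1 : ℤ) * A - q.2.1 * M = f ∧ (f + Y) / q.1 = q.2.2) := by
    intro A
    by_cases hA : A < M ∧ l1 (M : ℤ) A ≤ Y
    swap
    · exact ⟨(0, 0, 0), fun h1 h2 => absurd ⟨h1, h2⟩ hA⟩
    obtain ⟨f, g, h0, h1, h2⟩ := l1_spec (M : ℤ) A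
    have h3 := hA.2
    rw [← h2] at h3
    unfold sn at h3
    have hg0 : g ≠ 0 := by
      rintro rfl
      have hf : f ≠ 0 := by simpa using h0
      have h4 : (M : ℤ) ∣ f := by simpa using h1
      have := Int.le_of_dvd (abs_pos.2 hf) ((dvd_abs _ _).2 h4)
      have e0 := Int.abs_eq_natAbs f
      omega
    -- sign
    obtain ⟨f, g, hg, h1, h3⟩ : ∃ f g : ℤ, 0 < g ∧ (M : ℤ) ∣ g * A - f ∧
        max f.natAbs g.natAbs ≤ Y := by
      rcases lt_or_gt_of_ne hg0 with h | h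
      · refine ⟨-f, -g, by omega, ?_, by simpa using h3⟩
        have := (dvd_neg).2 h1
        have e : -(g * (A : ℤ) - f) = -g * A - -f := by ring
        rwa [e] at this
      · exact ⟨f, g, h, h1, h3⟩
    obtain ⟨q, hq⟩ := h1
    have hfY : |f| ≤ Y := by
      have e0 := Int.abs_eq_natAbs f
      omega
    have hf1 := abs_le.1 hfY
    have hgY : g ≤ Y := by omega
    have hMpos : (0 : ℤ) < M := by omega
    have hA0 : (0 : ℤ) ≤ A := by omega
    have hAM : (A : ℤ) < M := by exact_mod_cast hA.1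
    have hYM' : (Y : ℤ) < M := by exact_mod_cast hYM
    have hq0 : 0 ≤ q := by
      by_contra hneg
      push Not at hneg
      have h5 : (M : ℤ) * q ≤ -M := by nlinarith
      have h6 : 0 ≤ g * (A : ℤ) := by positivity
      linarith [hf1.2]
    have hqg : q ≤ g := by
      by_contra hneg
      push Not at hneg
      have h5 : (M : ℤ) * (g + 1) ≤ M * q := by nlinarith
      have h6 : g * (A : ℤ) ≤ g * M := by nlinarith
      linarith [hf1.1]
    refine ⟨(g.toNat, q.toNat, ((f + Y) / g).toNat), fun _ _ => ?_⟩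
    have e1 : ((g.toNat : ℕ) : ℤ) = g := Int.toNat_of_nonneg hg.le
    have e2 : ((q.toNat : ℕ) : ℤ) = q := Int.toNat_of_nonneg hq0
    have e3 : ((((f + Y) / g).toNat : ℕ) : ℤ) = (f + Y) / g :=
      Int.toNat_of_nonneg (Int.ediv_nonneg (by linarith [hf1.1]) hg.le)
    refine ⟨by simp only; omega, by simp only; omega, by simp only; omega, f, hfY, ?_, ?_⟩
    · simp only [e1, e2]
      linarith
    · simp only [e1, e3]
  choose q hq using key
  set T : Finset (ℕ × ℕ × ℕ) := (Icc 1 Y).biUnion (fun g => ((range (g + 1)) ×ˢ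
    (range (2 * Y / g + 1))).image (fun p => (g, p.1, p.2))) with hT
  have hTc : T.card ≤ 6 * Y ^ 2 := by
    refine card_biUnion_le.trans ?_
    have : ∀ g ∈ Icc 1 Y, (((range (g + 1)) ×ˢ
        (range (2 * Y / g + 1))).image (fun p : ℕ × ℕ => (g, p.1, p.2))).card ≤ 6 * Y := by
      intro g hg
      rw [mem_Icc] at hg
      refine card_image_le.trans ?_
      rw [card_product, card_range, card_range]
      have h1 : g * (2 * Y / g + 1) ≤ 3 * Y := by
        have := Nat.mul_div_le (2 * Y) g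
        nlinarith
      have h2 : (g + 1) * (2 * Y / g + 1) ≤ (2 * g) * (2 * Y / g + 1) :=
        Nat.mul_le_mul_right _ (by omega)
      calc (g + 1) * (2 * Y / g + 1) ≤ (2 * g) * (2 * Y / g + 1) := h2
        _ = 2 * (g * (2 * Y / g + 1)) := by ring
        _ ≤ 2 * (3 * Y) := by omega
        _ = 6 * Y := by ring
    refine (sum_le_sum this).trans ?_
    simp
    nlinarith
  refine le_trans (card_le_card_of_injOn q ?_ ?_) hTc
  · intro A hA
    simp only [coe_filter, Set.mem_ofPred_eq, mem_range] at hA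
    obtain ⟨h1, h2, h3, f, hf, h4, h5⟩ := hq A hA.1 hA.2
    rw [hT]
    simp only [coe_biUnion, Set.mem_iUnion, coe_image, Set.mem_image]
    refine ⟨(q A).1, by simp [h1, h2], ((q A).2.1, (q A).2.2), ?_, rfl⟩
    simp only [coe_product, coe_range, Set.mem_prod, Set.mem_Iio]
    refine ⟨by omega, ?_⟩
    have h6 : (f + Y) / ((q A).1 : ℤ) ≤ (2 * Y) / ((q A).1 : ℤ) :=
      Int.ediv_le_ediv (by omega) (by have := (abs_le.1 hf).2; linarith)
    rw [h5] at h6
    have h7 : ((q A).2.2 : ℤ) ≤ ((2 * Y / (q A).1 : ℕ) : ℤ) := by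
      push_cast
      exact h6
    omega
  · intro A hA B hB hAB
    simp only [coe_filter, Set.mem_ofPred_eq, mem_range] at hA hB
    obtain ⟨h1, h2, h3, f, hf, h4, h5⟩ := hq A hA.1 hA.2
    obtain ⟨h1', h2', h3', f', hf', h4', h5'⟩ := hq B hB.1 hB.2
    rw [← hAB] at h4' h5' h1'
    have hg : (0 : ℤ) < (q A).1 := by omega
    have h6 : f - f' = (q A).1 * ((A : ℤ) - B) := by
      rw [← h4, ← h4']; ring
    have h7 : |f - f'| < (q A).1 := by
      have e1 := Int.emod_add_mul_ediv (f + Y) (q A).1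
      have e2 := Int.emod_add_mul_ediv (f' + Y) (q A).1
      have e3 := Int.emod_nonneg (f + Y) hg.ne'
      have e4 := Int.emod_lt_of_pos (f + Y) hg
      have e5 := Int.emod_nonneg (f' + Y) hg.ne'
      have e6 := Int.emod_lt_of_pos (f' + Y) hg
      rw [h5] at e1
      rw [h5'] at e2
      rw [abs_lt]
      constructor <;> linarith
    rw [h6, abs_mul, abs_of_pos hg] at h7
    have h8 : |(A : ℤ) - B| < 1 := by
      by_contra hcon
      push Not at hcon
      nlinarith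
    have h9 := abs_lt.1 h8
    omega

/-- Thue's lemma -/
theorem thue (M A : ℕ) (hM : 1 ≤ M) : l1 (M : ℤ) A ^ 2 ≤ M := by
  set T := Nat.sqrt M with hT
  have h1 : M < (T + 1) * (T + 1) := Nat.lt_succ_sqrt M
  have h2 : T * T ≤ M := Nat.sqrt_le M
  have hc : (range M).card < (range (T + 1) ×ˢ range (T + 1)).card := by
    rw [card_product, card_range, card_range]; exact h1
  have hMpos : (0 : ℤ) < M := by exact_mod_cast hM
  obtain ⟨p, hp, r, hr, hne, he⟩ := Finset.exists_ne_map_eq_of_card_lt_of_maps_to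
    (f := fun p : ℕ × ℕ => (((p.2 : ℤ) * A - p.1) % (M : ℤ)).toNat) hc (by
      intro p _
      simp only [coe_range, Set.mem_Iio]
      have e1 := Int.emod_nonneg ((p.2 : ℤ) * A - p.1) hMpos.ne'
      have e2 := Int.emod_lt_of_pos ((p.2 : ℤ) * A - p.1) hMpos
      omega)
  simp only [mem_product, mem_range] at hp hr
  have e : ((p.2 : ℤ) * A - p.1) % (M : ℤ) = ((r.2 : ℤ) * A - r.1) % (M : ℤ) := by
    have e1 := Int.emod_nonneg ((p.2 : ℤ) * A - p.1) hMpos.ne'
    have e2 := Int.emod_nonneg ((r.2 : ℤ) * A - r.1) hMpos.ne'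
    omega
  have hd : (M : ℤ) ∣ ((p.2 : ℤ) - r.2) * A - ((p.1 : ℤ) - r.1) := by
    have := Int.ModEq.dvd e.symm
    have e2 : (p.2 : ℤ) * A - p.1 - ((r.2 : ℤ) * A - r.1) = ((p.2 : ℤ) - r.2) * A - ((p.1 : ℤ) - r.1) := by
      ring
    rwa [e2] at this
  have hnz : ((p.1 : ℤ) - r.1) ≠ 0 ∨ ((p.2 : ℤ) - r.2) ≠ 0 := by
    by_contra hcon
    push Not at hcon
    apply hne
    ext
    · omega
    · omega
  have h3 := l1_le hnz hd
  have h4 : sn ((p.1 : ℤ) - r.1) ((p.2 : ℤ) - r.2) ≤ T := by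
    unfold sn
    omega
  have h5 : l1 (M : ℤ) A ≤ T := h3.trans h4
  calc l1 (M : ℤ) A ^ 2 ≤ T ^ 2 := Nat.pow_le_pow_left h5 2
    _ = T * T := sq T
    _ ≤ M := h2

end Pool.Agent.Y540.Nad
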