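import Mathlib

/-!
`N`-adic complexity of infinite and of finite sequences, and Jacobsthal's function.
-/

set_option autoImplicit false

namespace Pool.Agent.Y540.Nad

open Finset

/-- The integer `b_0 + b_1 N + ⋯ + b_{k-1} N^{k-1}`. -/
def val (N : ℕ) (b : ℕ → Fin N) (k : ℕ) : ℤ := ∑ i ∈ range k, ((b i : ℕ) : ℤ) * (N : ℤ) ^ i

/-- The `N`-adic integer with the digits `b` is the fraction `f / g` (in lowest terms, `g > 0`):
`g * (b_0 + b_1 N + ⋯) = f` in `ℤ_N`, that is modulo all powers of `N`. -/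
def IsFrac (N : ℕ) (b : ℕ → Fin N) (f g : ℤ) : Prop :=
  0 < g ∧ Int.gcd f g = 1 ∧ ∀ k : ℕ, (N : ℤ) ^ k ∣ g * val N b k - f

/-- `N`-adic complexity of an infinite sequence: `log_N max (|f|, |g|)`, or `∞` if the sequence
does not represent a rational number. -/
noncomputable def lam (N : ℕ) (b : ℕ → Fin N) : EReal :=
  ⨅ (f : ℤ) (g : ℤ) (_ : IsFrac N b f g), ((Real.logb N (max |(f : ℝ)| |(g : ℝ)|) : ℝ) : EReal)

/-- `N`-adic complexity of a finite sequence: the minimum over all infinite extensions. -/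
noncomputable def lamFin (N n : ℕ) (a : Fin n → Fin N) : EReal :=
  ⨅ (b : ℕ → Fin N) (_ : ∀ i : Fin n, b i = a i), lam N b

/-- The average of the `N`-adic complexity over all sequences of length `n`. -/
noncomputable def Efin (N n : ℕ) : ℝ :=
  (∑ a : Fin n → Fin N, (lamFin N n a).toReal) / (N : ℝ) ^ n

/-- Jacobsthal's function: the least `H` such that among every `H` consecutive integers there is
one which is prime to `N`. -/
noncomputable def jac (N : ℕ) : ℕ :=
  sInf {H : ℕ | ∀ x : ℤ, ∃ i : ℕ, i < H ∧ Int.gcd (x + i) N = 1}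

end Pool.Agent.Y540.Nad
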