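import Mathlib
import Pool.Agent.Y540.NadA
import Pool.Agent.Y540.NadDefs

/-!
Upper bound for the size of the best good fraction in terms of the shortest vector.
-/

set_option autoImplicit false

namespace Pool.Agent.Y540.Nad

open Finset

theorem jac_mem (N : ℕ) (hN : 1 ≤ N) : ∀ x : ℤ, ∃ i : ℕ, i < N ∧ Int.gcd (x + i) N = 1 := by
  intro x
  have hN' : (0 : ℤ) < N := by exact_mod_cast hN
  have e1 := Int.emod_nonneg (1 - x) hN'.ne'
  have e2 := Int.emod_lt_of_pos (1 - x) hN'
  refine ⟨((1 - x) % N).toNat, by omega, ?_⟩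
  rw [Int.toNat_of_nonneg e1]
  have e3 : x + (1 - x) % N = 1 + N * (-((1 - x) / N)) := by
    have := Int.emod_add_mul_ediv (1 - x) N
    linarith
  rw [e3, ← Int.isCoprime_iff_gcd_eq_one]
  exact IsCoprime.add_mul_left_left isCoprime_one_left _

theorem jac_spec (N : ℕ) (hN : 1 ≤ N) :
    (∀ x : ℤ, ∃ i : ℕ, i < jac N ∧ Int.gcd (x + i) N = 1) ∧ jac N ≤ N :=
  ⟨Nat.sInf_mem (s := {H : ℕ | ∀ x : ℤ, ∃ i : ℕ, i < H ∧ Int.gcd (x + i) N = 1})
    ⟨N, jac_mem N hN⟩, Nat.sInf_le (jac_mem N hN)⟩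

theorem jac_lin (N : ℕ) (hN : 1 ≤ N) (a b : ℤ) (hab : IsCoprime a b) :
    ∃ i : ℕ, i < jac N ∧ Int.gcd (a + i * b) N = 1 := by
  classical
  set P : ℕ := ∏ p ∈ N.primeFactors.filter (fun p : ℕ => ¬ (p : ℤ) ∣ b), p with hP
  have hcop : IsCoprime b (P : ℤ) := by
    rw [hP]
    push_cast
    refine IsCoprime.prod_right fun p hp => ?_
    rw [mem_filter, Nat.mem_primeFactors] at hp
    have h1 : Prime (p : ℤ) := Nat.prime_iff_prime_int.1 hp.1.1
    exact ((h1.coprime_iff_not_dvd).2 hp.2).symm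
  obtain ⟨u, v, huv⟩ := hcop
  obtain ⟨i, hi, hg⟩ := (jac_spec N hN).1 (a * u)
  refine ⟨i, hi, ?_⟩
  by_contra hcon
  obtain ⟨p, hp, hpd⟩ := Nat.exists_prime_and_dvd hcon
  have h1 : (p : ℤ) ∣ a + i * b := (Int.natCast_dvd_natCast.2 hpd).trans (Int.gcd_dvd_left _ _)
  have h2 : (p : ℤ) ∣ N := (Int.natCast_dvd_natCast.2 hpd).trans (Int.gcd_dvd_right _ _)
  have hpp : Prime (p : ℤ) := Nat.prime_iff_prime_int.1 hp
  by_cases hb : (p : ℤ) ∣ b
  · have h3 : (p : ℤ) ∣ a := by
      have := dvd_sub h1 (hb.mul_left (i : ℤ))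
      simpa using this
    exact hpp.not_isUnit (hab.isUnit_of_dvd' h3 hb)
  · have h3 : (p : ℤ) ∣ P := by
      rw [hP]
      exact Int.natCast_dvd_natCast.2 (dvd_prod_of_mem _ (by
        rw [mem_filter, Nat.mem_primeFactors]
        exact ⟨⟨hp, Int.natCast_dvd_natCast.1 h2, by omega⟩, hb⟩))
    have h4 : (p : ℤ) ∣ (a * u + i) * b := by
      have e : (a * u + i) * b = (a + i * b) - a * v * P := by
        have : u * b = 1 - v * P := by linarith
        calc (a * u + i) * b = a * (u * b) + i * b := by ring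
          _ = a * (1 - v * P) + i * b := by rw [this]
          _ = _ := by ring
      rw [e]
      exact dvd_sub h1 (h3.mul_left _)
    rcases hpp.dvd_or_dvd h4 with h5 | h5
    · have h6 : (p : ℤ) ∣ (Int.gcd (a * u + i) N : ℤ) := Int.dvd_coe_gcd h5 h2
      rw [hg] at h6
      exact hpp.not_isUnit (isUnit_of_dvd_one (by simpa using h6))
    · exact hb h5

/-- a second vector -/
theorem second (M A : ℕ) (hM : 1 ≤ M) (f1 g1 : ℤ) (h0 : f1 ≠ 0 ∨ g1 ≠ 0)
    (h1 : (M : ℤ) ∣ g1 * A - f1) (hs : sn f1 g1 = l1 M A) :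
    ∃ f g : ℤ, IsCoprime g g1 ∧ (M : ℤ) ∣ g * A - f ∧ sn f g * l1 M A ≤ 2 * M := by
  obtain ⟨q1, hq⟩ := h1
  have hth := thue M A hM
  have hMpos : (0 : ℤ) < M := by exact_mod_cast hM
  have hcop : IsCoprime g1 q1 := by
    rw [Int.isCoprime_iff_gcd_eq_one]
    by_contra hcon
    obtain ⟨p, hp, hpd⟩ := Nat.exists_prime_and_dvd hcon
    have h2 : (p : ℤ) ∣ g1 := (Int.natCast_dvd_natCast.2 hpd).trans (Int.gcd_dvd_left _ _)
    have h3 : (p : ℤ) ∣ q1 := (Int.natCast_dvd_natCast.2 hpd).trans (Int.gcd_dvd_right _ _)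
    obtain ⟨g', hg'⟩ := h2
    obtain ⟨q', hq'⟩ := h3
    have hf1 : f1 = p * (g' * A - M * q') := by
      have : f1 = g1 * A - M * q1 := by linarith
      rw [this, hg', hq']; ring
    have hp2 := hp.two_le
    have hnz : (g' * A - M * q' ≠ 0 ∨ g' ≠ 0) := by
      by_contra hc
      push Not at hc
      rw [hf1, hc.1, hg', hc.2] at h0
      simp at h0
    have h4 := l1_le (M := (M : ℤ)) (A := (A : ℤ)) hnz ⟨q', by ring⟩
    rw [← hs, hf1, hg'] at h4
    unfold sn at h4
    rw [Int.natAbs_mul, Int.natAbs_mul, Int.natAbs_natCast] at h4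
    set x := (g' * A - M * q').natAbs
    set y := g'.natAbs
    have h5 : 1 ≤ max x y := by
      rcases hnz with h | h
      · have := Int.natAbs_pos.2 h
        omega
      · have := Int.natAbs_pos.2 h
        omega
    have h6 : max (p * x) (p * y) = p * max x y := (Nat.mul_max_mul_left p x y)
    rw [h6] at h4
    nlinarith
  obtain ⟨u, v, huv⟩ := hcop
  -- `w = a (A, 1) - b (M, 0)` with `g1 b - q1 a = 1`
  have hf1 : f1 = g1 * A - M * q1 := by linarith
  have key : ∀ t : ℤ, IsCoprime (-v + t * g1) g1 ∧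
      (M : ℤ) ∣ (-v + t * g1) * A - ((-v + t * g1) * A - (u + t * q1) * M) ∧
      f1 * (-v + t * g1) - g1 * ((-v + t * g1) * A - (u + t * q1) * M) = M := by
    intro t
    refine ⟨⟨-q1, u + t * q1, by linear_combination huv⟩, ⟨u + t * q1, by ring⟩, ?_⟩
    rw [hf1]
    linear_combination (M : ℤ) * huv
  have hl : max f1.natAbs g1.natAbs = l1 M A := hs
  have hlp := l1_pos M A
  set l := l1 (M : ℤ) (A : ℤ) with hldef
  have e1 := Int.abs_eq_natAbs f1
  have e2 := Int.abs_eq_natAbs g1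
  rcases le_total |g1| |f1| with hc | hc
  · -- `|f1| = l`
    have hfl : |f1| = l := by omega
    have hf0 : f1 ≠ 0 := by
      intro h
      rw [h] at hfl
      simp at hfl
      omega
    set c := (-v) * A - u * M with hcdef
    obtain ⟨k1, k2, k3⟩ := key (-(c / f1))
    have e3 : (-v + -(c / f1) * g1) * A - (u + -(c / f1) * q1) * M = c % f1 := by
      have := Int.emod_add_mul_ediv c f1
      have e4 : (-v + -(c / f1) * g1) * A - (u + -(c / f1) * q1) * M = c - (c / f1) * f1 := by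
        rw [hcdef, hf1]; ring
      rw [e4]; linarith
    rw [e3] at k2 k3
    set a := -v + -(c / f1) * g1 with ha
    refine ⟨c % f1, a, k1, k2, ?_⟩
    have b1 := Int.emod_nonneg c hf0
    have b2 : c % f1 < |f1| := Int.emod_lt_abs c hf0
    have b3 : |f1| * |a| ≤ 2 * M := by
      rw [← abs_mul]
      have : f1 * a = M + g1 * (c % f1) := by linarith
      rw [this]
      refine (abs_add_le _ _).trans ?_
      rw [abs_mul, abs_of_pos hMpos, abs_of_nonneg b1]
      have b4 : |g1| * (c % f1) ≤ l * l := by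
        apply mul_le_mul (by omega) (by omega) b1 (by omega)
      have b5 : ((l : ℤ)) * l ≤ M := by
        have : l ^ 2 ≤ M := hth
        rw [sq] at this
        exact_mod_cast this
      linarith
    have b6 : (c % f1).natAbs ≤ l := by omega
    have b7 : l * a.natAbs ≤ 2 * M := by
      have e5 := Int.abs_eq_natAbs a
      rw [hfl, e5] at b3
      exact_mod_cast b3
    have b8 : l * l ≤ M := by
      have : l ^ 2 ≤ M := hth
      rwa [sq] at this
    unfold sn
    rcases le_total (c % f1).natAbs a.natAbs with h | h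
    · rw [max_eq_right h]; linarith
    · rw [max_eq_left h]; nlinarith
  · have hgl : |g1| = l := by omega
    have hg0 : g1 ≠ 0 := by
      intro h
      rw [h] at hgl
      simp at hgl
      omega
    obtain ⟨k1, k2, k3⟩ := key (-((-v) / g1))
    have e3 : -v + -(-v / g1) * g1 = (-v) % g1 := by
      have := Int.emod_add_mul_ediv (-v) g1
      linarith
    rw [e3] at k1 k2 k3
    set c := -v % g1 * ↑A - (u + -(-v / g1) * q1) * ↑M with hcdef
    refine ⟨c, (-v) % g1, k1, k2, ?_⟩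
    have b1 := Int.emod_nonneg (-v) hg0
    have b2 : (-v) % g1 < |g1| := Int.emod_lt_abs (-v) hg0
    have b3 : |g1| * |c| ≤ 2 * M := by
      rw [← abs_mul]
      have : g1 * c = f1 * ((-v) % g1) - M := by linarith
      rw [this]
      refine (abs_sub _ _).trans ?_
      rw [abs_mul, abs_of_pos hMpos, abs_of_nonneg b1]
      have b4 : |f1| * ((-v) % g1) ≤ l * l := by
        apply mul_le_mul (by omega) (by omega) b1 (by omega)
      have b5 : ((l : ℤ)) * l ≤ M := by
        have : l ^ 2 ≤ M := hth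
        rw [sq] at this
        exact_mod_cast this
      linarith
    have b6 : ((-v) % g1).natAbs ≤ l := by omega
    have b7 : l * c.natAbs ≤ 2 * M := by
      have e5 := Int.abs_eq_natAbs c
      rw [hgl, e5] at b3
      exact_mod_cast b3
    have b8 : l * l ≤ M := by
      have : l ^ 2 ≤ M := hth
      rwa [sq] at this
    unfold sn
    rcases le_total c.natAbs ((-v) % g1).natAbs with h | h
    · rw [max_eq_right h]; nlinarith
    · rw [max_eq_left h]; linarith

/-- from a vector with denominator prime to `N` to a good fraction -/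
theorem good_of (N n : ℕ) (hN : 2 ≤ N) (A f g : ℤ) (hg : Int.gcd g N = 1)
    (h : ((N ^ n : ℕ) : ℤ) ∣ g * A - f) : sz N ((N ^ n : ℕ) : ℤ) A ≤ sn f g := by
  have hg0 : g ≠ 0 := by
    rintro rfl
    simp at hg
    omega
  have hd : Int.gcd f g ≠ 0 := by
    intro hc
    exact hg0 (Int.gcd_eq_zero_iff.1 hc).2
  obtain ⟨e, he⟩ : ∃ e : ℕ, e = Int.gcd f g := ⟨_, rfl⟩
  have hepos : 0 < e := by omega
  obtain ⟨f', hf'⟩ : (e : ℤ) ∣ f := he ▸ Int.gcd_dvd_left _ _
  obtain ⟨g', hg'⟩ : (e : ℤ) ∣ g := he ▸ Int.gcd_dvd_right _ _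
  have hcop : Int.gcd f' g' = 1 := by
    have h1 : Int.gcd f g = e * Int.gcd f' g' := by
      rw [hf', hg', Int.gcd_mul_left, Int.natAbs_natCast]
    rw [← he] at h1
    have : e * 1 = e * Int.gcd f' g' := by rw [mul_one]; exact h1
    exact (Nat.eq_of_mul_eq_mul_left hepos this).symm
  have hgN : IsCoprime g (N : ℤ) := Int.isCoprime_iff_gcd_eq_one.2 hg
  have hg'N : IsCoprime g' (N : ℤ) := by
    rw [hg'] at hgN
    exact hgN.of_mul_left_right
  have heN : IsCoprime (e : ℤ) (N : ℤ) := by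
    rw [hg'] at hgN
    exact hgN.of_mul_left_left
  have hdv : ((N ^ n : ℕ) : ℤ) ∣ g' * A - f' := by
    have e1 : g * A - f = e * (g' * A - f') := by rw [hf', hg']; ring
    rw [e1] at h
    refine IsCoprime.dvd_of_dvd_mul_left ?_ h
    push_cast
    exact heN.pow_right.symm
  have hsz : sn f' g' ≤ sn f g := by
    unfold sn
    rw [hf', hg', Int.natAbs_mul, Int.natAbs_mul, Int.natAbs_natCast]
    have a1 : f'.natAbs ≤ e * f'.natAbs := Nat.le_mul_of_pos_left _ hepos
    have a2 : g'.natAbs ≤ e * g'.natAbs := Nat.le_mul_of_pos_left _ hepos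
    omega
  have hg'0 : g' ≠ 0 := by
    rintro rfl
    simp at hg'
    exact hg0 hg'
  rcases lt_or_gt_of_ne hg'0 with hneg | hpos
  · have : Good N ((N ^ n : ℕ) : ℤ) A (-f') (-g') := by
      refine ⟨by omega, by simpa using hcop, by simpa using Int.isCoprime_iff_gcd_eq_one.1 hg'N, ?_⟩
      have e1 : -g' * A - -f' = -(g' * A - f') := by ring
      rw [e1]
      exact (dvd_neg).2 hdv
    refine (sz_le this).trans ?_
    unfold sn at hsz ⊢
    simpa using hsz
  · exact (sz_le ⟨hpos, hcop, Int.isCoprime_iff_gcd_eq_one.1 hg'N, hdv⟩).trans hsz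

theorem sz_l1 (N n A : ℕ) (hN : 2 ≤ N) :
    sz N ((N ^ n : ℕ) : ℤ) A * l1 ((N ^ n : ℕ) : ℤ) A ≤ (jac N + 1) * N ^ n := by
  have hM : 1 ≤ N ^ n := Nat.one_le_pow _ _ (by omega)
  set M := N ^ n with hMdef
  obtain ⟨f1, g1, h0, h1, hs⟩ := l1_spec (M : ℤ) A
  obtain ⟨f, g, hc, hd, hle⟩ := second M A hM f1 g1 h0 h1 hs
  obtain ⟨i, hi, hgi⟩ := jac_lin N (by omega) g g1 hc
  have h2 : (M : ℤ) ∣ (g + i * g1) * A - (f + i * f1) := by
    have e : (g + i * g1) * (A : ℤ) - (f + i * f1) = (g * A - f) + i * (g1 * A - f1) := by ring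
    rw [e]
    exact dvd_add hd (h1.mul_left _)
  have h3 := good_of N n hN A (f + i * f1) (g + i * g1) hgi h2
  have h4 : sn (f + i * f1) (g + i * g1) ≤ sn f g + i * sn f1 g1 := by
    unfold sn
    have a1 : (f + i * f1).natAbs ≤ f.natAbs + i * f1.natAbs := by
      refine (Int.natAbs_add_le _ _).trans ?_
      rw [Int.natAbs_mul, Int.natAbs_natCast]
    have a2 : (g + i * g1).natAbs ≤ g.natAbs + i * g1.natAbs := by
      refine (Int.natAbs_add_le _ _).trans ?_
      rw [Int.natAbs_mul, Int.natAbs_natCast]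
    have a3 : i * f1.natAbs ≤ i * max f1.natAbs g1.natAbs := Nat.mul_le_mul_left _ (le_max_left _ _)
    have a4 : i * g1.natAbs ≤ i * max f1.natAbs g1.natAbs := Nat.mul_le_mul_left _ (le_max_right _ _)
    omega
  have h5 := thue M A hM
  rw [hs] at h4
  set l := l1 (M : ℤ) (A : ℤ) with hl
  calc sz N (M : ℤ) A * l ≤ (sn f g + i * l) * l := Nat.mul_le_mul_right _ (h3.trans h4)
    _ = sn f g * l + i * l ^ 2 := by ring
    _ ≤ 2 * M + i * M := Nat.add_le_add hle (Nat.mul_le_mul_left _ h5)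
    _ = (i + 2) * M := by ring
    _ ≤ (jac N + 1) * M := Nat.mul_le_mul_right _ (by omega)

end Pool.Agent.Y540.Nad
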