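import Mathlib
import Pool.Agent.Y540.NadB

/-!
Averages of logarithms.
-/

set_option autoImplicit false

namespace Pool.Agent.Y540.Nad

open Finset

theorem inv_le_aux (F : ℕ) (hF : 1 ≤ F) (T : ℕ) :
    (1 : ℝ) / F ≤ 1 / (T + 1) + ∑ Y ∈ Icc 1 T, (if F ≤ Y then (1 : ℝ) / (Y * (Y + 1)) else 0) := by
  induction T with
  | zero =>
    simp only [CharP.cast_eq_zero, zero_add, zero_lt_one, Icc_eq_empty_of_lt,
      sum_empty, add_zero, div_one]
    rw [div_le_one (by exact_mod_cast hF)]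
    exact_mod_cast hF
  | succ T ih =>
    rw [Finset.sum_Icc_succ_top (by omega)]
    push_cast
    by_cases h : F ≤ T + 1
    · rw [if_pos h]
      have hT : (0 : ℝ) < (T : ℝ) + 1 := by positivity
      have e : (1 : ℝ) / (T + 1 + 1) + (1 / ((T + 1) * (T + 1 + 1))) = 1 / (T + 1) := by
        field_simp
      linarith
    · rw [if_neg h]
      have h1 : (T : ℝ) + 1 + 1 ≤ F := by exact_mod_cast (by omega : T + 1 + 1 ≤ F)
      have h2 : (1 : ℝ) / F ≤ 1 / (T + 1 + 1) := one_div_le_one_div_of_le (by positivity) h1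
      have h3 : 0 ≤ ∑ Y ∈ Icc 1 T, (if F ≤ Y then (1 : ℝ) / (Y * (Y + 1)) else 0) := by
        apply sum_nonneg
        intro Y _
        split_ifs
        · positivity
        · exact le_rfl
      linarith

theorem sum_inv_le {ι : Type*} (s : Finset ι) (F : ι → ℕ) (c : ℕ) (hF : ∀ i ∈ s, 1 ≤ F i)
    (hc : ∀ Y : ℕ, 1 ≤ Y → (s.filter (fun i => F i ≤ Y)).card ≤ c * Y ^ 2) :
    ∑ i ∈ s, (1 : ℝ) / F i ≤ (c + 1) * √(s.card : ℝ) := by
  classical
  set M := s.card with hM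
  set T := Nat.sqrt M with hT
  have h1 : ∑ i ∈ s, (1 : ℝ) / F i ≤ ∑ i ∈ s, (1 / ((T : ℝ) + 1) +
      ∑ Y ∈ Icc 1 T, (if F i ≤ Y then (1 : ℝ) / (Y * (Y + 1)) else 0)) :=
    sum_le_sum fun i hi => inv_le_aux (F i) (hF i hi) T
  rw [sum_add_distrib, sum_const, sum_comm, nsmul_eq_mul, ← hM] at h1
  have h2 : ∑ Y ∈ Icc 1 T, ∑ i ∈ s, (if F i ≤ Y then (1 : ℝ) / (Y * (Y + 1)) else 0) ≤
      ∑ Y ∈ Icc 1 T, (c : ℝ) := by
    refine sum_le_sum fun Y hY => ?_
    rw [mem_Icc] at hY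
    rw [← sum_filter, sum_const, nsmul_eq_mul]
    have h3 : ((s.filter (fun i => F i ≤ Y)).card : ℝ) ≤ c * (Y : ℝ) ^ 2 := by
      exact_mod_cast hc Y hY.1
    have hY0 : (0 : ℝ) < Y := by exact_mod_cast hY.1
    rw [mul_one_div, div_le_iff₀ (by positivity)]
    refine h3.trans ?_
    have : (0 : ℝ) ≤ c := Nat.cast_nonneg c
    nlinarith [mul_nonneg this hY0.le]
  rw [sum_const, Nat.card_Icc, nsmul_eq_mul] at h2
  have h4 : (M : ℝ) * (1 / ((T : ℝ) + 1)) ≤ √(M : ℝ) := by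
    rw [mul_one_div, div_le_iff₀ (by positivity)]
    have h5 : √(M : ℝ) ≤ (T : ℝ) + 1 := by
      have := Real.nat_sqrt_le_real_sqrt (a := M)
      have h6 := Real.real_sqrt_lt_nat_sqrt_succ (a := M)
      exact h6.le
    calc (M : ℝ) = √(M : ℝ) * √(M : ℝ) := (Real.mul_self_sqrt (Nat.cast_nonneg _)).symm
      _ ≤ √(M : ℝ) * ((T : ℝ) + 1) := by gcongr
  have h5 : (T : ℝ) ≤ √(M : ℝ) := Real.nat_sqrt_le_real_sqrt (a := M)
  have h6 : ((T + 1 - 1 : ℕ) : ℝ) * (c : ℝ) ≤ √(M : ℝ) * c := by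
    rw [Nat.add_sub_cancel]
    exact mul_le_mul_of_nonneg_right h5 (Nat.cast_nonneg c)
  calc ∑ i ∈ s, (1 : ℝ) / F i ≤ _ := h1
    _ ≤ √(M : ℝ) + √(M : ℝ) * c := add_le_add h4 (h2.trans h6)
    _ = _ := by ring

theorem sum_log_le {ι : Type*} (s : Finset ι) (x : ι → ℝ) (hs : s.Nonempty)
    (hx : ∀ i ∈ s, 0 < x i) :
    ∑ i ∈ s, Real.log (x i) ≤ s.card * Real.log ((∑ i ∈ s, x i) / s.card) := by
  have hc : (0 : ℝ) < s.card := by exact_mod_cast card_pos.2 hs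
  have h := strictConcaveOn_log_Ioi.concaveOn.le_map_sum (t := s) (w := fun _ => (1 : ℝ) / s.card)
    (p := x) (fun i _ => by positivity) (by rw [sum_const, nsmul_eq_mul]; field_simp)
    (fun i hi => hx i hi)
  simp only [smul_eq_mul] at h
  rw [← mul_sum, ← mul_sum] at h
  have h2 : (s.card : ℝ) * (1 / s.card * ∑ i ∈ s, Real.log (x i)) ≤
      s.card * Real.log (1 / s.card * ∑ i ∈ s, x i) := mul_le_mul_of_nonneg_left h hc.le
  have e : (s.card : ℝ) * (1 / s.card * ∑ i ∈ s, Real.log (x i)) = ∑ i ∈ s, Real.log (x i) := by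
    field_simp
  rw [e] at h2
  rw [div_eq_inv_mul, ← one_div]
  exact h2

/-- average of `-log F` for a function with few small values -/
theorem sum_neg_log_le {ι : Type*} (s : Finset ι) (F : ι → ℕ) (c : ℕ) (hs : s.Nonempty)
    (hF : ∀ i ∈ s, 1 ≤ F i)
    (hc : ∀ Y : ℕ, 1 ≤ Y → (s.filter (fun i => F i ≤ Y)).card ≤ c * Y ^ 2) :
    -∑ i ∈ s, Real.log (F i) ≤ s.card * (Real.log (c + 1) - Real.log s.card / 2) := by
  have hcard : (0 : ℝ) < s.card := by exact_mod_cast card_pos.2 hs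
  have h1 := sum_log_le s (fun i => (1 : ℝ) / F i) hs (fun i hi => by
    have : (0 : ℝ) < F i := by exact_mod_cast hF i hi
    positivity)
  have h2 := sum_inv_le s F c hF hc
  have h3 : ∑ i ∈ s, Real.log (1 / (F i : ℝ)) = -∑ i ∈ s, Real.log (F i) := by
    rw [← sum_neg_distrib]
    refine sum_congr rfl fun i _ => ?_
    rw [one_div, Real.log_inv]
  rw [h3] at h1
  refine h1.trans ?_
  refine mul_le_mul_of_nonneg_left ?_ hcard.le
  have hpos : 0 < ∑ i ∈ s, (1 : ℝ) / F i := by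
    apply sum_pos _ hs
    intro i hi
    have : (0 : ℝ) < F i := by exact_mod_cast hF i hi
    positivity
  calc Real.log ((∑ i ∈ s, (1 : ℝ) / F i) / s.card)
      ≤ Real.log ((c + 1) * √(s.card : ℝ) / s.card) := by
        apply Real.log_le_log (by positivity)
        gcongr
    _ = Real.log (c + 1) - Real.log s.card / 2 := by
        rw [Real.log_div (by positivity) hcard.ne', Real.log_mul (by positivity) (by positivity),
          Real.log_sqrt hcard.le]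
        ring

theorem lower (N n : ℕ) (hN : 2 ≤ N) :
    ((N ^ n : ℕ) : ℝ) * (n * Real.log N / 2 - Real.log 4) ≤
      ∑ A ∈ range (N ^ n), Real.log (sz N ((N ^ n : ℕ) : ℤ) (A : ℤ)) := by
  have h := sum_neg_log_le (range (N ^ n)) (fun A => sz N ((N ^ n : ℕ) : ℤ) (A : ℤ)) 3
    (nonempty_range_iff.2 (by positivity)) (fun A _ => sz_pos _ _ _)
    (fun Y hY => count_sz N n Y hY)
  rw [card_range] at h
  push_cast at h
  rw [Real.log_pow] at h
  push_cast
  have e : Real.log (3 + 1) = Real.log 4 := by norm_num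
  rw [e] at h
  linarith

theorem upper (N n : ℕ) (hN : 2 ≤ N) :
    ∑ A ∈ range (N ^ n), Real.log (sz N ((N ^ n : ℕ) : ℤ) (A : ℤ)) ≤
      ((N ^ n : ℕ) : ℝ) * (n * Real.log N / 2 + Real.log 7 + Real.log (jac N + 1)) := by
  have h := sum_neg_log_le (range (N ^ n)) (fun A => l1 ((N ^ n : ℕ) : ℤ) (A : ℤ)) 6
    (nonempty_range_iff.2 (by positivity)) (fun A _ => l1_pos _ _)
    (fun Y hY => count_l1 (N ^ n) Y hY)
  rw [card_range] at h
  have hN0 : (0 : ℝ) < N := by exact_mod_cast (by omega : 0 < N)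
  have h2 : ∀ A ∈ range (N ^ n), Real.log (sz N ((N ^ n : ℕ) : ℤ) (A : ℤ)) ≤
      (Real.log (jac N + 1) + n * Real.log N) - Real.log (l1 ((N ^ n : ℕ) : ℤ) (A : ℤ)) := by
    intro A _
    have h3 := sz_l1 N n A hN
    have h4 : (0 : ℝ) < sz N ((N ^ n : ℕ) : ℤ) (A : ℤ) := by exact_mod_cast sz_pos _ _ _
    have h5 : (0 : ℝ) < l1 ((N ^ n : ℕ) : ℤ) (A : ℤ) := by exact_mod_cast l1_pos _ _
    have h6 : (sz N ((N ^ n : ℕ) : ℤ) (A : ℤ) : ℝ) * l1 ((N ^ n : ℕ) : ℤ) (A : ℤ) ≤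
      ((jac N : ℝ) + 1) * (N : ℝ) ^ n := by exact_mod_cast h3
    have h7 := Real.log_le_log (by positivity) h6
    rw [Real.log_mul h4.ne' h5.ne', Real.log_mul (by positivity) (by positivity),
      Real.log_pow] at h7
    linarith
  have h3 := sum_le_sum h2
  rw [sum_sub_distrib, sum_const, card_range, nsmul_eq_mul] at h3
  push_cast at h h3 ⊢
  rw [Real.log_pow] at h
  have e : Real.log (6 + 1) = Real.log 7 := by norm_num
  rw [e] at h
  nlinarith

end Pool.Agent.Y540.Nad
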