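import Mathlib
import Pool.Agent.Y540.NadC

/-!
`N`-adic complexity of infinite and of finite sequences.
-/

set_option autoImplicit false

namespace Pool.Agent.Y540.Nad

open Finset

theorem isFrac_gcd {N : ℕ} {b : ℕ → Fin N} {f g : ℤ} (h : IsFrac N b f g) :
    IsCoprime g (N : ℤ) := by
  rw [Int.isCoprime_iff_gcd_eq_one]
  by_contra hcon
  obtain ⟨p, hp, hpd⟩ := Nat.exists_prime_and_dvd hcon
  have h1 : (p : ℤ) ∣ g := (Int.natCast_dvd_natCast.2 hpd).trans (Int.gcd_dvd_left _ _)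
  have h2 : (p : ℤ) ∣ N := (Int.natCast_dvd_natCast.2 hpd).trans (Int.gcd_dvd_right _ _)
  have h3 := h.2.2 1
  rw [pow_one] at h3
  have h4 : (p : ℤ) ∣ f := by
    have := dvd_sub (h1.mul_right (val N b 1)) (h2.trans h3)
    have e : g * val N b 1 - (g * val N b 1 - f) = f := by ring
    rwa [e] at this
  have h5 : (p : ℤ) ∣ (Int.gcd f g : ℤ) := Int.dvd_coe_gcd h4 h1
  rw [h.2.1] at h5
  exact (Nat.prime_iff_prime_int.1 hp).not_isUnit (isUnit_of_dvd_one (by simpa using h5))

/-- the fraction is unique -/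
theorem isFrac_unique {N : ℕ} (hN : 2 ≤ N) {b : ℕ → Fin N} {f g f' g' : ℤ} (h : IsFrac N b f g)
    (h' : IsFrac N b f' g') : f = f' ∧ g = g' := by
  have key : f * g' = f' * g := by
    by_contra hne
    have h1 : f * g' - f' * g ≠ 0 := sub_ne_zero.2 hne
    have h2 : ∀ k : ℕ, (N : ℤ) ^ k ∣ f * g' - f' * g := by
      intro k
      have e1 := (h.2.2 k).mul_left g'
      have e2 := (h'.2.2 k).mul_left g
      have := dvd_sub e2 e1
      have e : g * (g' * val N b k - f') - g' * (g * val N b k - f) = f * g' - f' * g := by ring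
      rwa [e] at this
    obtain ⟨m, hm⟩ : ∃ m : ℕ, m = (f * g' - f' * g).natAbs := ⟨_, rfl⟩
    have h3 := Int.le_of_dvd (abs_pos.2 h1) ((dvd_abs _ _).2 (h2 m))
    rw [Int.abs_eq_natAbs, ← hm] at h3
    have h4 : m < N ^ m := Nat.lt_pow_self (by omega)
    have h5 : (m : ℤ) < (N : ℤ) ^ m := by exact_mod_cast h4
    linarith
  have c1 : IsCoprime f g := Int.isCoprime_iff_gcd_eq_one.2 h.2.1
  have c2 : IsCoprime f' g' := Int.isCoprime_iff_gcd_eq_one.2 h'.2.1
  have d1 : g ∣ g' := c1.symm.dvd_of_dvd_mul_left (Dvd.intro_left f' key.symm)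
  have d2 : g' ∣ g := c2.symm.dvd_of_dvd_mul_left (Dvd.intro_left f key)
  have e : g = g' := Int.dvd_antisymm h.1.le h'.1.le d1 d2
  subst e
  exact ⟨mul_right_cancel₀ h.1.ne' key, rfl⟩

theorem lam_eq {N : ℕ} (hN : 2 ≤ N) {b : ℕ → Fin N} {f g : ℤ} (h : IsFrac N b f g) :
    lam N b = ((Real.logb N (max |(f : ℝ)| |(g : ℝ)|) : ℝ) : EReal) := by
  apply le_antisymm
  · exact iInf_le_of_le f (iInf_le_of_le g (iInf_le_of_le h le_rfl))
  · refine le_iInf fun f' => le_iInf fun g' => le_iInf fun h' => ?_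
    obtain ⟨rfl, rfl⟩ := isFrac_unique hN h h'
    exact le_rfl

theorem lam_top {N : ℕ} {b : ℕ → Fin N} (h : ¬ ∃ f g, IsFrac N b f g) : lam N b = ⊤ := by
  unfold lam
  simp only [not_exists] at h
  simp [h]

/-! ### expansions -/

/-- remainders of the expansion of `f / g` -/
def rems (N : ℕ) (u g f : ℤ) : ℕ → ℤ
  | 0 => f
  | j + 1 => (rems N u g f j - g * ((u * rems N u g f j) % N)) / N

theorem rems_spec (N : ℕ) (u g f : ℤ) (hu : (N : ℤ) ∣ u * g - 1) (j : ℕ) :
    rems N u g f j = g * ((u * rems N u g f j) % N) + N * rems N u g f (j + 1) := by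
  have h : (N : ℤ) ∣ rems N u g f j - g * ((u * rems N u g f j) % N) := by
    set r := rems N u g f j
    obtain ⟨v, hv⟩ := hu
    have e := Int.emod_add_mul_ediv (u * r) N
    refine ⟨-v * r + g * (u * r / N), ?_⟩
    have e2 : (u * r) % N = u * r - N * (u * r / N) := by linarith
    rw [e2]
    have e3 : u * g = 1 + N * v := by linarith
    linear_combination (-r) * e3
  have := Int.mul_ediv_cancel' h
  change _ = _ + (N : ℤ) * ((rems N u g f j - g * ((u * rems N u g f j) % N)) / N)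
  rw [this]
  ring

theorem rems_sum (N : ℕ) (u g f : ℤ) (hu : (N : ℤ) ∣ u * g - 1) (k : ℕ) :
    f = g * ∑ j ∈ range k, ((u * rems N u g f j) % N) * (N : ℤ) ^ j +
      (N : ℤ) ^ k * rems N u g f k := by
  induction k with
  | zero => simp [rems]
  | succ k ih =>
    rw [sum_range_succ, pow_succ]
    have h := rems_spec N u g f hu k
    conv_lhs => rw [ih]
    linear_combination ((N : ℤ) ^ k) * h

/-- the value of a finite sequence -/
def vala (N n : ℕ) (a : Fin n → Fin N) : ℕ := (finFunctionFinEquiv a : ℕ)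

theorem val_ext {N n : ℕ} {a : Fin n → Fin N} {b : ℕ → Fin N} (h : ∀ i : Fin n, b i = a i) :
    val N b n = (vala N n a : ℤ) := by
  unfold val vala
  rw [finFunctionFinEquiv_apply, ← Fin.sum_univ_eq_sum_range
    (fun i => ((b i : ℕ) : ℤ) * (N : ℤ) ^ i)]
  push_cast
  refine sum_congr rfl fun i _ => ?_
  rw [h i]

theorem val_dvd (N : ℕ) (b : ℕ → Fin N) (k m : ℕ) :
    (N : ℤ) ^ k ∣ val N b (k + m) - val N b k := by
  unfold val
  rw [sum_range_add, add_sub_cancel_left]
  refine dvd_sum fun i _ => ?_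
  rw [pow_add]
  exact Dvd.intro_left (((b (k + i) : ℕ) : ℤ) * (N : ℤ) ^ i) (by ring)

theorem exists_ext (N n : ℕ) (hN : 2 ≤ N) (a : Fin n → Fin N) (f g : ℤ)
    (h : Good N ((N ^ n : ℕ) : ℤ) (vala N n a) f g) :
    ∃ b : ℕ → Fin N, (∀ i : Fin n, b i = a i) ∧ IsFrac N b f g := by
  obtain ⟨hg, hfg, hgN, hd⟩ := h
  obtain ⟨u, v, huv⟩ := Int.isCoprime_iff_gcd_eq_one.2 hgN
  have hu : (N : ℤ) ∣ u * g - 1 := ⟨-v, by linarith⟩
  obtain ⟨f', hf'⟩ := hd
  have hNpos : (0 : ℤ) < N := by exact_mod_cast (by omega : 0 < N)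
  have hdig : ∀ j, ((u * rems N u g (-f') j) % N).toNat < N := by
    intro j
    have e1 := Int.emod_nonneg (u * rems N u g (-f') j) hNpos.ne'
    have e2 := Int.emod_lt_of_pos (u * rems N u g (-f') j) hNpos
    omega
  set b : ℕ → Fin N := fun i => if hi : i < n then a ⟨i, hi⟩ else
    ⟨((u * rems N u g (-f') (i - n)) % N).toNat, hdig _⟩ with hb
  have hba : ∀ i : Fin n, b i = a i := by
    intro i
    simp [hb]
  refine ⟨b, hba, hg, hfg, ?_⟩
  have hA := val_ext hba
  have hbig : ∀ m : ℕ, (N : ℤ) ^ (n + m) ∣ g * val N b (n + m) - f := by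
    intro m
    have e1 : val N b (n + m) = vala N n a + (N : ℤ) ^ n *
        ∑ j ∈ range m, ((u * rems N u g (-f') j) % N) * (N : ℤ) ^ j := by
      unfold val at hA ⊢
      rw [sum_range_add, hA, mul_sum]
      congr 1
      refine sum_congr rfl fun j _ => ?_
      have e2 : ((b (n + j) : ℕ) : ℤ) = (u * rems N u g (-f') j) % N := by
        simp only [hb]
        rw [dif_neg (by omega)]
        simp only [Nat.add_sub_cancel_left]
        exact Int.toNat_of_nonneg (Int.emod_nonneg _ hNpos.ne')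
      rw [e2, pow_add]
      ring
    have e3 := rems_sum N u g (-f') hu m
    refine ⟨-rems N u g (-f') m, ?_⟩
    rw [e1, pow_add]
    push_cast at hf'
    linear_combination hf' - (N : ℤ) ^ n * e3
  intro k
  rcases le_total n k with hk | hk
  · obtain ⟨m, rfl⟩ := Nat.exists_eq_add_of_le hk
    exact hbig m
  · obtain ⟨m, hm⟩ := Nat.exists_eq_add_of_le hk
    have h1 := hbig 0
    rw [add_zero] at h1
    have h2 := val_dvd N b k m
    rw [← hm] at h2
    have h3 : (N : ℤ) ^ k ∣ g * val N b n - f := (pow_dvd_pow _ hk).trans h1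
    have := dvd_sub h3 (h2.mul_left g)
    have e : g * val N b n - f - g * (val N b n - val N b k) = g * val N b k - f := by ring
    rwa [e] at this

theorem max_cast (f g : ℤ) : max |(f : ℝ)| |(g : ℝ)| = (sn f g : ℝ) := by
  unfold sn
  push_cast
  rw [Nat.cast_natAbs, Nat.cast_natAbs]
  push_cast
  rfl

theorem lamFin_eq (N n : ℕ) (hN : 2 ≤ N) (a : Fin n → Fin N) :
    lamFin N n a = ((Real.logb N (sz N ((N ^ n : ℕ) : ℤ) (vala N n a)) : ℝ) : EReal) ∧
      ∃ b : ℕ → Fin N, (∀ i : Fin n, b i = a i) ∧ lam N b = lamFin N n a := by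
  obtain ⟨f, g, hG, hs⟩ := sz_spec N ((N ^ n : ℕ) : ℤ) (vala N n a)
  obtain ⟨b, hb, hF⟩ := exists_ext N n hN a f g hG
  have h1 : lam N b = ((Real.logb N (sz N ((N ^ n : ℕ) : ℤ) (vala N n a)) : ℝ) : EReal) := by
    rw [lam_eq hN hF, max_cast, hs]
  have h2 : lamFin N n a = ((Real.logb N (sz N ((N ^ n : ℕ) : ℤ) (vala N n a)) : ℝ) : EReal) := by
    apply le_antisymm
    · rw [← h1]
      exact iInf_le_of_le b (iInf_le_of_le hb le_rfl)
    · refine le_iInf fun b' => le_iInf fun hb' => le_iInf fun f' => le_iInf fun g' =>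
        le_iInf fun h' => ?_
      have hgood : Good N ((N ^ n : ℕ) : ℤ) (vala N n a) f' g' := by
        refine ⟨h'.1, h'.2.1, Int.isCoprime_iff_gcd_eq_one.1 (isFrac_gcd h'), ?_⟩
        rw [← val_ext hb']
        push_cast
        exact h'.2.2 n
      have h3 := sz_le hgood
      rw [max_cast]
      apply EReal.coe_le_coe
      have h4 := sz_pos N ((N ^ n : ℕ) : ℤ) (vala N n a)
      apply Real.logb_le_logb_of_le (by exact_mod_cast (by omega : 1 < N))
        (by exact_mod_cast h4)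
      exact_mod_cast h3
  exact ⟨h2, b, hb, by rw [h1, h2]⟩

theorem sum_vala (N n : ℕ) (F : ℕ → ℝ) :
    ∑ a : Fin n → Fin N, F (vala N n a) = ∑ A ∈ range (N ^ n), F A := by
  unfold vala
  rw [Equiv.sum_comp (finFunctionFinEquiv (m := N) (n := n)) (fun x : Fin (N ^ n) => F x),
    Fin.sum_univ_eq_sum_range]

theorem Efin_eq (N n : ℕ) (hN : 2 ≤ N) :
    Efin N n = (∑ A ∈ range (N ^ n), Real.log (sz N ((N ^ n : ℕ) : ℤ) (A : ℤ))) /
      (Real.log N * (N : ℝ) ^ n) := by
  unfold Efin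
  have h : ∀ a : Fin n → Fin N, (lamFin N n a).toReal =
      (fun A : ℕ => Real.log (sz N ((N ^ n : ℕ) : ℤ) (A : ℤ)) / Real.log N) (vala N n a) := by
    intro a
    rw [(lamFin_eq N n hN a).1, EReal.toReal_coe]
    rfl
  simp only [h]
  rw [sum_vala N n (fun A : ℕ => Real.log (sz N ((N ^ n : ℕ) : ℤ) (A : ℤ)) / Real.log N),
    ← sum_div, div_div]

theorem bounds (N n : ℕ) (hN : 2 ≤ N) :
    (n : ℝ) / 2 - Real.log 4 / Real.log N ≤ Efin N n ∧
      Efin N n ≤ (n : ℝ) / 2 + (Real.log 7 + Real.log (jac N + 1)) / Real.log N := by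
  have h1 := lower N n hN
  have h2 := upper N n hN
  push_cast at h1 h2
  have hlog : 0 < Real.log N := Real.log_pos (by exact_mod_cast (by omega : 1 < N))
  have hN0 : (0 : ℝ) < N := by exact_mod_cast (by omega : 0 < N)
  have hp : (0 : ℝ) < (N : ℝ) ^ n := by positivity
  rw [Efin_eq N n hN]
  push_cast
  constructor
  · rw [le_div_iff₀ (by positivity)]
    refine le_trans (le_of_eq ?_) h1
    field_simp
  · rw [div_le_iff₀ (by positivity)]
    refine h2.trans (le_of_eq ?_)
    field_simp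
    ring

theorem bound5 (N n : ℕ) (hN : 2 ≤ N) : |Efin N n - (n : ℝ) / 2| ≤ 5 := by
  obtain ⟨h1, h2⟩ := bounds N n hN
  have hN2 : (2 : ℝ) ≤ N := by exact_mod_cast hN
  have hlog : 0 < Real.log N := Real.log_pos (by linarith)
  have hl2 : Real.log 2 ≤ Real.log N := Real.log_le_log (by norm_num) hN2
  have e4 : Real.log 4 = 2 * Real.log 2 := by
    rw [show (4 : ℝ) = 2 ^ 2 by norm_num, Real.log_pow]; norm_num
  have e7 : Real.log 7 ≤ 3 * Real.log 2 := by
    rw [show 3 * Real.log 2 = Real.log (2 ^ 3) by rw [Real.log_pow]; norm_num]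
    exact Real.log_le_log (by norm_num) (by norm_num)
  have hj : Real.log (jac N + 1) ≤ 2 * Real.log N := by
    rw [show 2 * Real.log N = Real.log ((N : ℝ) ^ 2) by rw [Real.log_pow]; norm_num]
    apply Real.log_le_log (by positivity)
    have : (jac N : ℝ) ≤ N := by exact_mod_cast (jac_spec N (by omega)).2
    nlinarith
  have a1 : Real.log 4 / Real.log N ≤ 2 := by rw [div_le_iff₀ hlog]; linarith
  have a2 : (Real.log 7 + Real.log (jac N + 1)) / Real.log N ≤ 5 := by
    rw [div_le_iff₀ hlog]; linarith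
  rw [abs_le]
  constructor <;> linarith

theorem jac_prime_pow (p k : ℕ) (hp : p.Prime) : jac (p ^ k) ≤ 2 := by
  refine Nat.sInf_le ?_
  intro x
  by_cases h : (p : ℤ) ∣ x
  · refine ⟨1, by norm_num, ?_⟩
    rw [← Int.isCoprime_iff_gcd_eq_one]
    push_cast
    refine IsCoprime.pow_right ?_
    refine (((Nat.prime_iff_prime_int.1 hp).coprime_iff_not_dvd).2 ?_).symm
    intro hc
    have h1 := dvd_sub hc h
    rw [add_sub_cancel_left] at h1
    exact (Nat.prime_iff_prime_int.1 hp).not_isUnit (isUnit_of_dvd_one h1)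
  · refine ⟨0, by norm_num, ?_⟩
    rw [← Int.isCoprime_iff_gcd_eq_one]
    push_cast
    rw [add_zero]
    exact ((((Nat.prime_iff_prime_int.1 hp).coprime_iff_not_dvd).2 h).symm).pow_right

end Pool.Agent.Y540.Nad
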