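import Mathlib

/-!
Sup norm of a ring with a finite `ℤ`-basis.
-/

set_option autoImplicit false

namespace Pool.Agent.Y540.Pia

open Finset Module

section
variable {R : Type} [CommRing R] {d : ℕ} (b : Basis (Fin d) ℤ R)

/-- largest absolute value of a coordinate -/
noncomputable def nm (x : R) : ℕ := univ.sup fun i => (b.repr x i).natAbs

theorem le_nm (x : R) (i : Fin d) : (b.repr x i).natAbs ≤ nm b x :=
  Finset.le_sup (f := fun i => (b.repr x i).natAbs) (mem_univ i)

theorem nm_le {x : R} {k : ℕ} (h : ∀ i, (b.repr x i).natAbs ≤ k) : nm b x ≤ k :=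
  Finset.sup_le fun i _ => h i

theorem nm_eq_zero {x : R} : nm b x = 0 ↔ x = 0 := by
  constructor
  · intro h
    apply b.repr.injective
    ext i
    have := le_nm b x i
    rw [h] at this
    simpa using this
  · rintro rfl
    have : nm b (0 : R) ≤ 0 := nm_le b fun i => by simp
    omega

theorem nm_zero : nm b (0 : R) = 0 := (nm_eq_zero b).2 rfl

theorem nm_pos {x : R} (h : x ≠ 0) : 1 ≤ nm b x := by
  have := mt (nm_eq_zero b).1 h
  omega

theorem nm_neg (x : R) : nm b (-x) = nm b x := by
  unfold nm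
  congr 1
  ext i
  simp

theorem nm_add (x y : R) : nm b (x + y) ≤ nm b x + nm b y := by
  refine nm_le b fun i => ?_
  have e : b.repr (x + y) i = b.repr x i + b.repr y i := by simp
  rw [e]
  have h1 := le_nm b x i
  have h2 := le_nm b y i
  have h3 := Int.natAbs_add_le (b.repr x i) (b.repr y i)
  omega

theorem nm_sub (x y : R) : nm b (x - y) ≤ nm b x + nm b y := by
  rw [sub_eq_add_neg]
  refine (nm_add b _ _).trans ?_
  rw [nm_neg]

theorem nm_zsmul (m : ℤ) (x : R) : nm b (m • x) = m.natAbs * nm b x := by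
  apply le_antisymm
  · refine nm_le b fun i => ?_
    have e : b.repr (m • x) i = m * b.repr x i := by rw [map_zsmul]; rfl
    rw [e, Int.natAbs_mul]
    exact Nat.mul_le_mul_left _ (le_nm b x i)
  · rcases Nat.eq_zero_or_pos m.natAbs with h | h
    · rw [h]; simp
    · by_cases hd : (univ : Finset (Fin d)).Nonempty
      · obtain ⟨i, -, hi⟩ := Finset.exists_mem_eq_sup univ hd (fun i => (b.repr x i).natAbs)
        have e : b.repr (m • x) i = m * b.repr x i := by rw [map_zsmul]; rfl
        have h1 := le_nm b (m • x) i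
        rw [e, Int.natAbs_mul] at h1
        unfold nm at *
        rw [hi]
        exact h1
      · rw [Finset.not_nonempty_iff_eq_empty] at hd
        unfold nm
        rw [hd]
        simp

theorem nm_sum {ι : Type*} (s : Finset ι) (f : ι → R) : nm b (∑ i ∈ s, f i) ≤ ∑ i ∈ s, nm b (f i) := by
  classical
  induction s using Finset.induction_on with
  | empty => simp [nm_zero]
  | insert a s ha ih =>
    rw [sum_insert ha, sum_insert ha]
    exact (nm_add b _ _).trans (Nat.add_le_add_left ih _)

/-- the product is bounded -/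
theorem exists_kappa : ∃ κ : ℕ, 1 ≤ κ ∧ ∀ x y : R, nm b (x * y) ≤ κ * nm b x * nm b y := by
  refine ⟨1 + ∑ i, ∑ j, nm b (b i * b j), by omega, fun x y => ?_⟩
  have e : x * y = ∑ i, ∑ j, (b.repr x i * b.repr y j) • (b i * b j) := by
    conv_lhs => rw [← b.sum_repr x, ← b.sum_repr y]
    rw [sum_mul_sum]
    refine sum_congr rfl fun i _ => sum_congr rfl fun j _ => ?_
    rw [smul_mul_smul_comm]
  rw [e]
  refine (nm_sum b _ _).trans ?_
  refine (sum_le_sum fun i _ => nm_sum b _ _).trans ?_
  have h : ∀ i j, nm b ((b.repr x i * b.repr y j) • (b i * b j)) ≤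
      nm b (b i * b j) * (nm b x * nm b y) := by
    intro i j
    rw [nm_zsmul, Int.natAbs_mul, mul_comm]
    exact Nat.mul_le_mul_left _ (Nat.mul_le_mul (le_nm b x i) (le_nm b y j))
  refine (sum_le_sum fun i _ => sum_le_sum fun j _ => h i j).trans ?_
  simp only [← sum_mul]
  rw [mul_assoc, add_mul]
  exact Nat.le_add_left _ _

/-- the norm is bounded -/
theorem exists_normC : ∃ C : ℕ, 1 ≤ C ∧ ∀ x : R, (Algebra.norm ℤ x).natAbs ≤ C * nm b x ^ d := by
  obtain ⟨κ, hκ, hmul⟩ := exists_kappa b
  set B : ℕ := 1 + ∑ j, nm b (b j) with hB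
  refine ⟨Nat.factorial d * (κ * B) ^ d, ?_, fun x => ?_⟩
  · have h1 : 0 < κ * B := Nat.mul_pos hκ (by omega)
    exact Nat.mul_pos (Nat.factorial_pos d) (pow_pos h1 d)
  · rw [Algebra.norm_eq_matrix_det b x]
    have h1 : ∀ i j, (AbsoluteValue.abs : AbsoluteValue ℤ ℤ) (Algebra.leftMulMatrix b x i j) ≤
        ((κ * B * nm b x : ℕ) : ℤ) := by
      intro i j
      rw [Algebra.leftMulMatrix_eq_repr_mul]
      have h2 := le_nm b (x * b j) i
      have h3 := hmul x (b j)
      have h4 : nm b (b j) ≤ B := by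
        have := single_le_sum (f := fun j => nm b (b j)) (fun _ _ => Nat.zero_le _) (mem_univ j)
        omega
      have h5 : κ * nm b x * nm b (b j) ≤ κ * nm b x * B := Nat.mul_le_mul_left _ h4
      have h6 : κ * nm b x * B = κ * B * nm b x := by ring
      rw [AbsoluteValue.abs_apply, Int.abs_eq_natAbs]
      exact_mod_cast (by omega : (b.repr (x * b j) i).natAbs ≤ κ * B * nm b x)
    have h2 := Matrix.det_le h1
    rw [AbsoluteValue.abs_apply, Int.abs_eq_natAbs, Fintype.card_fin, nsmul_eq_mul] at h2
    have h3 : (Algebra.leftMulMatrix b x).det.natAbs ≤ Nat.factorial d * (κ * B * nm b x) ^ d := by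
      exact_mod_cast h2
    refine h3.trans (le_of_eq ?_)
    rw [mul_pow (κ * B)]
    ring

include b in
/-- every nonzero element divides a nonzero integer -/
theorem exists_adj [IsDomain R] {x : R} (hx : x ≠ 0) : ∃ (y : R) (m : ℤ), m ≠ 0 ∧ x * y = m • (1 : R) := by
  have : Module.Free ℤ R := Module.Free.of_basis b
  have : Module.Finite ℤ R := Module.Finite.of_basis b
  refine ⟨b.equivFun.symm ((Algebra.leftMulMatrix b x).adjugate.mulVec (b.repr 1)),
    (Algebra.leftMulMatrix b x).det, ?_, ?_⟩
  · rw [← Algebra.norm_eq_matrix_det b x]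
    exact Algebra.norm_ne_zero_iff.2 hx
  · apply b.equivFun.injective
    have h1 : b.equivFun (x * b.equivFun.symm ((Algebra.leftMulMatrix b x).adjugate.mulVec (b.repr 1)))
        = (Algebra.leftMulMatrix b x).mulVec
          ((Algebra.leftMulMatrix b x).adjugate.mulVec (b.repr 1)) := by
      have := Algebra.leftMulMatrix_mulVec_repr b x
        (b.equivFun.symm ((Algebra.leftMulMatrix b x).adjugate.mulVec (b.repr 1)))
      rw [Basis.equivFun_apply, ← this]
      congr 1
      rw [← Basis.equivFun_apply, LinearEquiv.apply_symm_apply]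
    rw [h1, Matrix.mulVec_mulVec, Matrix.mul_adjugate, Matrix.smul_mulVec, Matrix.one_mulVec]
    rw [map_zsmul]
    rfl

include b in
/-- the index of the ideal generated by `g` -/
theorem card_quot [IsDomain R] (g : R) (hg : g ≠ 0) :
    Nat.card (R ⧸ LinearMap.range (LinearMap.mulLeft ℤ g)) = (Algebra.norm ℤ g).natAbs := by
  have : Module.Free ℤ R := Module.Free.of_basis b
  have : Module.Finite ℤ R := Module.Finite.of_basis b
  have hinj : Function.Injective (LinearMap.mulLeft ℤ g) := fun x y h => mul_left_cancel₀ hg h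
  have h := Submodule.natAbs_det_equiv (LinearMap.range (LinearMap.mulLeft ℤ g))
    (LinearEquiv.ofInjective (LinearMap.mulLeft ℤ g) hinj)
  rw [← h]
  congr 1

end

end Pool.Agent.Y540.Pia
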