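import Mathlib
import Pool.Agent.Y540.PiaA

/-!
A packing bound, and vectors of a lattice on a line.
-/

set_option autoImplicit false

namespace Pool.Agent.Y540.Pia

open Finset Module Metric MeasureTheory
open scoped ENNReal

/-- Packing bound in a finite dimensional normed space. -/
theorem card_le_of_sep {E : Type*} [NormedAddCommGroup E] [NormedSpace ℝ E]
    [FiniteDimensional ℝ E] (s : Finset E) (X l : ℝ) (hX : 0 ≤ X) (hl : 0 < l)
    (hs : ∀ c ∈ s, ‖c‖ ≤ X) (h : ∀ c ∈ s, ∀ e ∈ s, c ≠ e → l ≤ ‖c - e‖) :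
    (s.card : ℝ) * l ^ finrank ℝ E ≤ (2 * X + l) ^ finrank ℝ E := by
  borelize E
  let μ : Measure E := Measure.addHaar
  let δ : ℝ := l / 2
  let ρ : ℝ := X + l / 2
  have ρpos : 0 < ρ := by positivity
  have δpos : 0 < δ := by positivity
  set A := ⋃ c ∈ s, ball (c : E) δ with hA
  have D : Set.Pairwise (s : Set E) (Function.onFun Disjoint fun c => ball (c : E) δ) := by
    rintro c hc e he hce
    apply ball_disjoint_ball
    rw [dist_eq_norm]
    have := h c hc e he hce
    simp only [δ]
    linarith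
  have A_subset : A ⊆ ball (0 : E) ρ := by
    refine Set.iUnion₂_subset fun x hx => ?_
    apply ball_subset_ball'
    have := hs x hx
    rw [dist_zero_right]
    simp only [δ, ρ]
    linarith
  have I :
    (s.card : ℝ≥0∞) * ENNReal.ofReal (δ ^ finrank ℝ E) * μ (ball 0 1) ≤
      ENNReal.ofReal (ρ ^ finrank ℝ E) * μ (ball 0 1) :=
    calc
      (s.card : ℝ≥0∞) * ENNReal.ofReal (δ ^ finrank ℝ E) * μ (ball 0 1) = μ A := by
        rw [hA, measure_biUnion_finset D fun c _ => measurableSet_ball]
        simp only [μ.addHaar_ball_of_pos _ δpos]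
        simp only [Finset.sum_const, nsmul_eq_mul, mul_assoc]
      _ ≤ μ (ball (0 : E) ρ) := measure_mono A_subset
      _ = ENNReal.ofReal (ρ ^ finrank ℝ E) * μ (ball 0 1) := by
        simp only [μ.addHaar_ball_of_pos _ ρpos]
  have J : (s.card : ℝ≥0∞) * ENNReal.ofReal (δ ^ finrank ℝ E) ≤ ENNReal.ofReal (ρ ^ finrank ℝ E) :=
    (ENNReal.mul_le_mul_iff_left (measure_ball_pos _ _ zero_lt_one).ne' measure_ball_lt_top.ne).1 I
  have K : (s.card : ℝ) * δ ^ finrank ℝ E ≤ ρ ^ finrank ℝ E := by
    have h1 := ENNReal.toReal_le_of_le_ofReal (pow_nonneg ρpos.le _) J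
    rw [ENNReal.toReal_mul, ENNReal.toReal_natCast,
      ENNReal.toReal_ofReal (pow_nonneg δpos.le _)] at h1
    exact h1
  have e1 : l ^ finrank ℝ E = 2 ^ finrank ℝ E * δ ^ finrank ℝ E := by
    rw [← mul_pow]; congr 1; simp only [δ]; ring
  have e2 : (2 * X + l) ^ finrank ℝ E = 2 ^ finrank ℝ E * ρ ^ finrank ℝ E := by
    rw [← mul_pow]; congr 1; simp only [ρ]; ring
  rw [e1, e2]
  have h2 : (0 : ℝ) < 2 ^ finrank ℝ E := by positivity
  nlinarith

section
variable {R : Type} [CommRing R] [IsDomain R] {d : ℕ} (b : Basis (Fin d) ℤ R)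

/-- real coordinates of a pair -/
noncomputable def io (v : R × R) : (Fin d → ℝ) × (Fin d → ℝ) :=
  (fun i => (b.repr v.1 i : ℝ), fun i => (b.repr v.2 i : ℝ))

/-- sup norm of a pair -/
noncomputable def sn (v : R × R) : ℕ := max (nm b v.1) (nm b v.2)

omit [IsDomain R] in
theorem io_sub (v w : R × R) : io b (v - w) = io b v - io b w := by
  unfold io
  ext i <;> simp

omit [IsDomain R] in
theorem io_zsmul (m : ℤ) (v : R × R) : io b (m • v) = (m : ℝ) • io b v := by
  unfold io
  ext i
  · simp only [Prod.smul_fst, map_zsmul, Pi.smul_apply, smul_eq_mul]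
    have : (m • b.repr v.1) i = m * b.repr v.1 i := rfl
    rw [this]; push_cast; rfl
  · simp only [Prod.smul_snd, map_zsmul, Pi.smul_apply, smul_eq_mul]
    have : (m • b.repr v.2) i = m * b.repr v.2 i := rfl
    rw [this]; push_cast; rfl

omit [IsDomain R] in
theorem io_sum {ι : Type*} (s : Finset ι) (c : ι → ℤ) (v : ι → R × R) :
    io b (∑ i ∈ s, c i • v i) = ∑ i ∈ s, (c i : ℝ) • io b (v i) := by
  classical
  induction s using Finset.induction_on with
  | empty =>
    simp only [sum_empty]
    unfold io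
    ext i <;> simp
  | insert a s ha ih =>
    rw [sum_insert ha, sum_insert ha, ← ih, ← io_zsmul]
    have : ∀ v w : R × R, io b (v + w) = io b v + io b w := by
      intro v w
      unfold io
      ext i <;> simp
    rw [this]

omit [IsDomain R] in
theorem norm_coord (x : R) : ‖(fun i => (b.repr x i : ℝ) : Fin d → ℝ)‖ = (nm b x : ℝ) := by
  apply le_antisymm
  · rw [pi_norm_le_iff_of_nonneg (Nat.cast_nonneg _)]
    intro i
    rw [Real.norm_eq_abs, ← Int.cast_abs, Int.abs_eq_natAbs]
    exact_mod_cast le_nm b x i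
  · rcases Nat.eq_zero_or_pos d with h | h
    · subst h
      have : nm b x = 0 := by unfold nm; simp
      rw [this]
      simp
    · have hne : (univ : Finset (Fin d)).Nonempty := ⟨⟨0, h⟩, mem_univ _⟩
      obtain ⟨i, -, hi⟩ := Finset.exists_mem_eq_sup univ hne (fun i => (b.repr x i).natAbs)
      have h1 := norm_le_pi_norm (fun i => (b.repr x i : ℝ) : Fin d → ℝ) i
      have h2 : ‖(b.repr x i : ℝ)‖ = ((b.repr x i).natAbs : ℝ) := by
        rw [Real.norm_eq_abs, ← Int.cast_abs, Int.abs_eq_natAbs]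
        rfl
      rw [h2] at h1
      unfold nm
      rw [hi]
      exact h1

omit [IsDomain R] in
theorem norm_io (v : R × R) : ‖io b v‖ = (sn b v : ℝ) := by
  unfold io sn
  rw [Prod.norm_def, norm_coord, norm_coord]
  push_cast
  rfl

/-- Lattice vectors proportional to `v1`, with mutual distances at least `l`. -/
theorem line_card (v1 : R × R) (hv1 : v1 ≠ 0) (P : Finset (R × R)) (X l : ℕ) (hl : 1 ≤ l)
    (hlX : l ≤ X) (hD : ∀ v ∈ P, v.1 * v1.2 = v.2 * v1.1) (hX : ∀ v ∈ P, sn b v ≤ X)
    (hsep : ∀ v ∈ P, ∀ w ∈ P, v ≠ w → l ≤ sn b (v - w)) :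
    P.card * l ^ d ≤ (3 * X) ^ d := by
  classical
  set W : Submodule ℝ ((Fin d → ℝ) × (Fin d → ℝ)) :=
    Submodule.span ℝ (Set.range fun j : Fin d => io b (b j * v1.1, b j * v1.2)) with hW
  have hfin : finrank ℝ W ≤ d := by
    have := finrank_range_le_card (R := ℝ) (fun j : Fin d => io b (b j * v1.1, b j * v1.2))
    rw [Fintype.card_fin] at this
    exact this
  -- membership
  have hmem : ∀ v ∈ P, io b v ∈ W := by
    intro v hv
    have hDv := hD v hv
    obtain ⟨γ, m, hm, h1, h2⟩ : ∃ (γ : R) (m : ℤ), m ≠ 0 ∧ m • v.1 = γ * v1.1 ∧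
        m • v.2 = γ * v1.2 := by
      by_cases h0 : v1.2 = 0
      · have h3 : v1.1 ≠ 0 := by
          intro h
          exact hv1 (Prod.ext h h0)
        obtain ⟨y, m, hm, hy⟩ := exists_adj b h3
        refine ⟨y * v.1, m, hm, ?_, ?_⟩
        · calc m • v.1 = (m • (1 : R)) * v.1 := by rw [smul_one_mul]
            _ = y * v.1 * v1.1 := by rw [← hy]; ring
        · rw [h0, mul_zero]
          have : v.2 = 0 := by
            rw [h0, mul_zero] at hDv
            rcases mul_eq_zero.1 hDv.symm with h | h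
            · exact h
            · exact absurd h h3
          rw [this, smul_zero]
      · obtain ⟨y, m, hm, hy⟩ := exists_adj b h0
        refine ⟨y * v.2, m, hm, ?_, ?_⟩
        · calc m • v.1 = (m • (1 : R)) * v.1 := by rw [smul_one_mul]
            _ = y * (v.1 * v1.2) := by rw [← hy]; ring
            _ = y * v.2 * v1.1 := by rw [hDv]; ring
        · calc m • v.2 = (m • (1 : R)) * v.2 := by rw [smul_one_mul]
            _ = y * v.2 * v1.2 := by rw [← hy]; ring
    have h3 : (m : ℝ) • io b v = ∑ j, (b.repr γ j : ℝ) • io b (b j * v1.1, b j * v1.2) := by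
      rw [← io_zsmul, ← io_sum]
      congr 1
      have e : ∀ t : R, γ * t = ∑ j, b.repr γ j • (b j * t) := by
        intro t
        conv_lhs => rw [← b.sum_repr γ]
        rw [sum_mul]
        refine sum_congr rfl fun j _ => ?_
        rw [smul_mul_assoc]
      ext
      · rw [Prod.smul_fst, h1, e, Prod.fst_sum]
        rfl
      · rw [Prod.smul_snd, h2, e, Prod.snd_sum]
        rfl
    have h4 : (m : ℝ) ≠ 0 := by exact_mod_cast hm
    have h5 : (m : ℝ) • io b v ∈ W := by
      rw [h3]
      exact Submodule.sum_mem _ fun j _ =>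
        Submodule.smul_mem _ _ (Submodule.subset_span ⟨j, rfl⟩)
    exact (Submodule.smul_mem_iff W h4).1 h5
  -- injectivity
  have hinj : Function.Injective (io b) := by
    intro v w h
    by_contra hne
    have h1 : ‖io b (v - w)‖ = 0 := by rw [io_sub, h, sub_self, norm_zero]
    rw [norm_io] at h1
    have h2 : sn b (v - w) = 0 := by exact_mod_cast h1
    unfold sn at h2
    have h3 : (v - w).1 = 0 := (nm_eq_zero b).1 (by omega)
    have h4 : (v - w).2 = 0 := (nm_eq_zero b).1 (by omega)
    exact hne (sub_eq_zero.1 (Prod.ext h3 h4))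
  set Q : Finset W := P.attach.image (fun v => (⟨io b v.1, hmem v.1 v.2⟩ : W)) with hQ
  have hQc : Q.card = P.card := by
    rw [hQ, card_image_of_injective, card_attach]
    intro v w h
    simp only [Subtype.mk.injEq] at h
    exact Subtype.ext (hinj h)
  have hmain := card_le_of_sep Q (X : ℝ) (l : ℝ) (Nat.cast_nonneg _) (by exact_mod_cast hl)
    (by
      intro c hc
      rw [hQ, mem_image] at hc
      obtain ⟨v, -, rfl⟩ := hc
      change ‖io b v.1‖ ≤ X
      rw [norm_io]
      exact_mod_cast hX v.1 v.2)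
    (by
      intro c hc e he hce
      rw [hQ, mem_image] at hc he
      obtain ⟨v, -, rfl⟩ := hc
      obtain ⟨w, -, rfl⟩ := he
      have hvw : v.1 ≠ w.1 := by
        intro h
        apply hce
        simp only [h]
      change (l : ℝ) ≤ ‖io b v.1 - io b w.1‖
      rw [← io_sub, norm_io]
      exact_mod_cast hsep v.1 v.2 w.1 w.2 hvw)
  rw [hQc] at hmain
  have hl0 : (0 : ℝ) < l := by exact_mod_cast hl
  have hX0 : (l : ℝ) ≤ X := by exact_mod_cast hlX
  obtain ⟨k, hk⟩ := Nat.exists_eq_add_of_le hfin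
  have h6 : (P.card : ℝ) * l ^ d ≤ (3 * X) ^ d := by
    calc (P.card : ℝ) * l ^ d = (P.card * (l : ℝ) ^ finrank ℝ W) * l ^ k := by
          conv_lhs => rw [hk, pow_add]
          ring
      _ ≤ (2 * X + l) ^ finrank ℝ W * l ^ k := by gcongr
      _ ≤ (3 * X) ^ finrank ℝ W * (3 * X) ^ k := by
          gcongr
          · linarith
          · linarith
      _ = (3 * X) ^ d := by
          conv_rhs => rw [hk, pow_add]
  exact_mod_cast h6

end

end Pool.Agent.Y540.Pia
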