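import Mathlib
import Pool.Agent.Y540.PiaB

/-!
Short vectors of the lattice `f ≡ g A (mod P)`, and short vectors with denominator prime to `π`.
-/

set_option autoImplicit false

namespace Pool.Agent.Y540.Pia

open Finset Module

section
variable {R : Type} [CommRing R] {d : ℕ} (b : Basis (Fin d) ℤ R)

/-- length of a shortest nonzero vector of the lattice `f ≡ g A (mod P)` -/
noncomputable def l1 (P A : R) : ℕ :=
  sInf {s | ∃ v : R × R, v ≠ 0 ∧ P ∣ v.2 * A - v.1 ∧ sn b v = s}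

/-- length of a shortest vector of the lattice with second coordinate prime to `π` -/
noncomputable def sz (π P A : R) : ℕ :=
  sInf {s | ∃ v : R × R, (∃ u, π ∣ u * v.2 - 1) ∧ P ∣ v.2 * A - v.1 ∧ sn b v = s}

theorem l1_spec [Nontrivial R] (P A : R) : ∃ v : R × R, v ≠ 0 ∧ P ∣ v.2 * A - v.1 ∧ sn b v = l1 b P A := by
  have h : {s | ∃ v : R × R, v ≠ 0 ∧ P ∣ v.2 * A - v.1 ∧ sn b v = s}.Nonempty :=
    ⟨_, (A, 1), by simp [Prod.ext_iff], by simp, rfl⟩
  exact Nat.sInf_mem h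

theorem l1_le {P A : R} {v : R × R} (h : v ≠ 0) (h2 : P ∣ v.2 * A - v.1) : l1 b P A ≤ sn b v :=
  Nat.sInf_le ⟨v, h, h2, rfl⟩

theorem sn_pos {v : R × R} (h : v ≠ 0) : 1 ≤ sn b v := by
  unfold sn
  by_cases h1 : v.1 = 0
  · have h2 : v.2 ≠ 0 := fun h3 => h (Prod.ext h1 h3)
    have := nm_pos b h2
    omega
  · have := nm_pos b h1
    omega

theorem l1_pos [Nontrivial R] (P A : R) : 1 ≤ l1 b P A := by
  obtain ⟨v, h, -, hs⟩ := l1_spec b P A
  rw [← hs]
  exact sn_pos b h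

theorem sz_spec (π P A : R) : ∃ v : R × R, (∃ u, π ∣ u * v.2 - 1) ∧ P ∣ v.2 * A - v.1 ∧
    sn b v = sz b π P A := by
  have h : {s | ∃ v : R × R, (∃ u, π ∣ u * v.2 - 1) ∧ P ∣ v.2 * A - v.1 ∧ sn b v = s}.Nonempty :=
    ⟨_, (A, 1), ⟨1, by simp⟩, by simp, rfl⟩
  exact Nat.sInf_mem h

theorem sz_le {π P A : R} {v : R × R} (h : ∃ u, π ∣ u * v.2 - 1) (h2 : P ∣ v.2 * A - v.1) :
    sz b π P A ≤ sn b v :=
  Nat.sInf_le ⟨v, h, h2, rfl⟩

/-- an element with given small coordinates -/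
noncomputable def ofc {K : ℕ} (c : Fin d → Fin K) : R := ∑ i, ((c i : ℕ) : ℤ) • b i

theorem repr_ofc {K : ℕ} (c : Fin d → Fin K) (i : Fin d) : b.repr (ofc b c) i = (c i : ℕ) := by
  unfold ofc
  exact b.repr_sum_self (fun i => ((c i : ℕ) : ℤ)) ▸ rfl

theorem ofc_inj {K : ℕ} : Function.Injective (ofc b (K := K)) := by
  intro c c' h
  ext i
  have h1 := repr_ofc b c i
  rw [h, repr_ofc] at h1
  exact_mod_cast h1.symm

theorem nm_ofc_sub {K : ℕ} (c c' : Fin d → Fin K) : nm b (ofc b c - ofc b c') ≤ K - 1 := by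
  refine nm_le b fun i => ?_
  have e : b.repr (ofc b c - ofc b c') i = (c i : ℕ) - ((c' i : ℕ) : ℤ) := by
    rw [map_sub]
    change b.repr (ofc b c) i - b.repr (ofc b c') i = _
    rw [repr_ofc, repr_ofc]
  rw [e]
  have h1 := (c i).2
  have h2 := (c' i).2
  omega

theorem pigeon {N n : ℕ} (P A : R) (cl : R → Fin n → Fin N)
    (hcl : ∀ x y, cl x = cl y → P ∣ x - y) (K k : ℕ) (h : N ^ n * k < K ^ (2 * d)) :
    ∃ Q : Finset (R × R), k < Q.card ∧ ∀ v ∈ Q, P ∣ v.2 * A - v.1 ∧ sn b v ≤ K - 1 := by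
  classical
  set S : Finset ((Fin d → Fin K) × (Fin d → Fin K)) := univ with hS
  have hScard : S.card = K ^ (2 * d) := by
    rw [hS, card_univ, Fintype.card_prod, Fintype.card_fun, Fintype.card_fin, Fintype.card_fin,
      ← pow_add, two_mul]
  have hT : (univ : Finset (Fin n → Fin N)).card = N ^ n := by
    rw [card_univ, Fintype.card_fun, Fintype.card_fin, Fintype.card_fin]
  obtain ⟨y, -, hy⟩ := exists_lt_card_fiber_of_mul_lt_card_of_maps_to (s := S)
    (t := (univ : Finset (Fin n → Fin N))) (n := k)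
    (f := fun p => cl (ofc b p.2 * A - ofc b p.1)) (fun _ _ => mem_univ _)
    (by rw [hT, hScard]; exact h)
  obtain ⟨p0, hp0⟩ : (S.filter (fun p => cl (ofc b p.2 * A - ofc b p.1) = y)).Nonempty :=
    card_pos.1 (by omega)
  rw [mem_filter] at hp0
  refine ⟨(S.filter (fun p => cl (ofc b p.2 * A - ofc b p.1) = y)).image
    (fun p => (ofc b p.1 - ofc b p0.1, ofc b p.2 - ofc b p0.2)), ?_, ?_⟩
  · rw [card_image_of_injective]
    · exact hy
    · intro p q hpq
      simp only [Prod.mk.injEq, sub_left_inj] at hpq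
      exact Prod.ext (ofc_inj b hpq.1) (ofc_inj b hpq.2)
  · intro v hv
    rw [mem_image] at hv
    obtain ⟨p, hp, rfl⟩ := hv
    rw [mem_filter] at hp
    constructor
    · have h1 := hcl _ _ (hp.2.trans hp0.2.symm)
      have e : ofc b p.2 * A - ofc b p.1 - (ofc b p0.2 * A - ofc b p0.1) =
          (ofc b p.2 - ofc b p0.2) * A - (ofc b p.1 - ofc b p0.1) := by ring
      rwa [e] at h1
    · unfold sn
      exact max_le (nm_ofc_sub b _ _) (nm_ofc_sub b _ _)

theorem thue {N n : ℕ} (P A : R) (cl : R → Fin n → Fin N)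
    (hcl : ∀ x y, cl x = cl y → P ∣ x - y) (K : ℕ) (h : N ^ n < K ^ (2 * d)) :
    l1 b P A ≤ K - 1 := by
  obtain ⟨Q, hQ, hQ2⟩ := pigeon b P A cl hcl K 1 (by rw [mul_one]; exact h)
  obtain ⟨v, hv, hv0⟩ : ∃ v ∈ Q, v ≠ 0 := by
    by_contra hcon
    push Not at hcon
    have : Q ⊆ {0} := fun v hv => mem_singleton.2 (hcon v hv)
    have := card_le_card this
    rw [card_singleton] at this
    omega
  exact (l1_le b hv0 (hQ2 v hv).1).trans (hQ2 v hv).2

variable [IsDomain R]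

theorem second {N n : ℕ} (P A : R) (cl : R → Fin n → Fin N)
    (hcl : ∀ x y, cl x = cl y → P ∣ x - y) (v1 : R × R) (hv1 : v1 ≠ 0)
    (X : ℕ) (hX : l1 b P A ≤ X) (h : N ^ n * 3 ^ d < (X * l1 b P A) ^ d) :
    ∃ w : R × R, P ∣ w.2 * A - w.1 ∧ sn b w ≤ X ∧ v1.1 * w.2 - v1.2 * w.1 ≠ 0 := by
  set l := l1 b P A with hl
  have hl1 : 1 ≤ l := l1_pos b P A
  set k := (3 * X) ^ d / l ^ d with hk
  have hlp : 0 < l ^ d := by positivity
  have h1 : k * l ^ d ≤ (3 * X) ^ d := Nat.div_mul_le_self _ _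
  have h2 : N ^ n * k < X ^ (2 * d) := by
    have h3 : N ^ n * k * l ^ d < X ^ (2 * d) * l ^ d := by
      calc N ^ n * k * l ^ d = N ^ n * (k * l ^ d) := by ring
        _ ≤ N ^ n * (3 * X) ^ d := Nat.mul_le_mul_left _ h1
        _ = (N ^ n * 3 ^ d) * X ^ d := by rw [mul_pow]; ring
        _ < (X * l) ^ d * X ^ d := by
            have : 0 < X ^ d := pow_pos (by omega) _
            exact Nat.mul_lt_mul_of_pos_right h this
        _ = X ^ (2 * d) * l ^ d := by rw [mul_pow]; ring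
    exact lt_of_mul_lt_mul_right h3 (Nat.zero_le _)
  obtain ⟨Q, hQ, hQ2⟩ := pigeon b P A cl hcl X k h2
  by_contra hcon
  push Not at hcon
  have h3 := line_card b v1 hv1 Q X l hl1 hX
    (fun v hv => by
      have h4 := hcon v (hQ2 v hv).1 (by have := (hQ2 v hv).2; omega)
      linear_combination -h4)
    (fun v hv => by have := (hQ2 v hv).2; omega)
    (fun v hv w hw hvw => by
      apply l1_le b (sub_ne_zero.2 hvw)
      have h5 := dvd_sub (hQ2 v hv).1 (hQ2 w hw).1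
      have e : v.2 * A - v.1 - (w.2 * A - w.1) = (v - w).2 * A - (v - w).1 := by
        rw [Prod.fst_sub, Prod.snd_sub]; ring
      rwa [e] at h5)
  have h4 : (3 * X) ^ d < (k + 1) * l ^ d := by
    rw [hk]
    exact (Nat.div_lt_iff_lt_mul hlp).1 (Nat.lt_succ_self _)
  have h5 : (k + 1) * l ^ d ≤ Q.card * l ^ d := Nat.mul_le_mul_right _ hQ
  omega

end

end Pool.Agent.Y540.Pia
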