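import Mathlib
import Pool.Agent.Y540.PiaC

/-!
A short vector with denominator prime to `π` from two short independent vectors.
-/

set_option autoImplicit false

namespace Pool.Agent.Y540.Pia

open Finset Module

section
variable {R : Type} [CommRing R] [IsDomain R] {d : ℕ} (b : Basis (Fin d) ℤ R)

omit [IsDomain R] in
/-- division with remainder of the coordinates -/
theorem divmod (γ : R) (m : ℤ) (hm : m ≠ 0) : ∃ q r : R, γ = m • q + r ∧ nm b r ≤ m.natAbs := by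
  refine ⟨∑ i, (b.repr γ i / m) • b i, ∑ i, (b.repr γ i % m) • b i, ?_, ?_⟩
  · conv_lhs => rw [← b.sum_repr γ]
    rw [smul_sum, ← sum_add_distrib]
    refine sum_congr rfl fun i _ => ?_
    rw [smul_smul, ← add_smul]
    congr 1
    have := Int.emod_add_mul_ediv (b.repr γ i) m
    linarith
  · refine nm_le b fun i => ?_
    have e : b.repr (∑ i, (b.repr γ i % m) • b i) i = b.repr γ i % m := by
      exact b.repr_sum_self (fun i => b.repr γ i % m) ▸ rfl
    rw [e]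
    have h1 := Int.emod_nonneg (b.repr γ i) hm
    have h2 := Int.emod_lt_abs (b.repr γ i) hm
    have h3 := Int.abs_eq_natAbs m
    omega

theorem generate (π : R) (hπ : π ≠ 0) : ∃ C : ℕ, 1 ≤ C ∧ ∀ (P A : R) (v w : R × R) (X : ℕ),
    P ∣ v.2 * A - v.1 → P ∣ w.2 * A - w.1 → P ≠ 0 → v.1 * w.2 - v.2 * w.1 ≠ 0 → sn b v ≤ X →
    sn b w ≤ X → sz b π P A ≤ C * X := by
  obtain ⟨κ, hκ, hmul⟩ := exists_kappa b
  refine ⟨κ * nm b π * (2 * κ), ?_, ?_⟩
  · have := nm_pos b hπ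
    have h1 : 0 < κ * nm b π := Nat.mul_pos (by omega) (by omega)
    have h2 : 0 < 2 * κ := by omega
    exact Nat.mul_pos h1 h2
  intro P A v w X hv hw hP hD hvX hwX
  set D := v.1 * w.2 - v.2 * w.1 with hDdef
  obtain ⟨E, m, hm, hE⟩ := exists_adj b (mul_ne_zero hD hπ)
  -- `D (A, 1) = α v + β w`
  set α := A * w.2 - w.1 with hα
  set β := v.1 - v.2 * A with hβ
  obtain ⟨q, r, hq, hr⟩ := divmod b (E * α) m hm
  obtain ⟨q', r', hq', hr'⟩ := divmod b (E * β) m hm
  have hvX' : nm b v.1 ≤ X ∧ nm b v.2 ≤ X := by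
    unfold sn at hvX; omega
  have hwX' : nm b w.1 ≤ X ∧ nm b w.2 ≤ X := by
    unfold sn at hwX; omega
  have key : ∀ (t s1 s2 : R), D * t = α * s1 + β * s2 → nm b s1 ≤ X → nm b s2 ≤ X →
      nm b (t - π * (q * s1 + q' * s2)) ≤ κ * nm b π * (2 * κ) * X := by
    intro t s1 s2 ht h1 h2
    have e1 : m • t = D * π * E * t := by rw [hE, smul_one_mul]
    have e2 : m • (t - π * (q * s1 + q' * s2)) = π * (r * s1 + r' * s2) := by
      rw [smul_sub, e1]
      have e3 : D * π * E * t = π * ((E * α) * s1 + (E * β) * s2) := by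
        calc D * π * E * t = π * E * (D * t) := by ring
          _ = π * ((E * α) * s1 + (E * β) * s2) := by rw [ht]; ring
      rw [e3, hq, hq', zsmul_eq_mul, zsmul_eq_mul, zsmul_eq_mul]
      ring
    have h3 : m.natAbs * nm b (t - π * (q * s1 + q' * s2)) ≤
        m.natAbs * (κ * nm b π * (2 * κ) * X) := by
      rw [← nm_zsmul, e2]
      have a1 := hmul π (r * s1 + r' * s2)
      have a2 := nm_add b (r * s1) (r' * s2)
      have a3 := hmul r s1
      have a4 := hmul r' s2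
      have a5 : κ * nm b r * nm b s1 ≤ κ * m.natAbs * X :=
        Nat.mul_le_mul (Nat.mul_le_mul_left _ hr) h1
      have a6 : κ * nm b r' * nm b s2 ≤ κ * m.natAbs * X :=
        Nat.mul_le_mul (Nat.mul_le_mul_left _ hr') h2
      have a7 : nm b (r * s1 + r' * s2) ≤ 2 * κ * m.natAbs * X := by
        have : 2 * κ * m.natAbs * X = κ * m.natAbs * X + κ * m.natAbs * X := by ring
        omega
      calc nm b (π * (r * s1 + r' * s2)) ≤ κ * nm b π * nm b (r * s1 + r' * s2) := a1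
        _ ≤ κ * nm b π * (2 * κ * m.natAbs * X) := Nat.mul_le_mul_left _ a7
        _ = m.natAbs * (κ * nm b π * (2 * κ) * X) := by ring
    exact Nat.le_of_mul_le_mul_left h3 (Int.natAbs_pos.2 hm)
  have k1 := key A v.1 w.1 (by rw [hDdef, hα, hβ]; ring) hvX'.1 hwX'.1
  have k2 := key 1 v.2 w.2 (by rw [hDdef, hα, hβ]; ring) hvX'.2 hwX'.2
  refine (sz_le b (v := (A - π * (q * v.1 + q' * w.1), 1 - π * (q * v.2 + q' * w.2))) ?_ ?_).trans ?_
  · exact ⟨1, ⟨-(q * v.2 + q' * w.2), by ring⟩⟩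
  · have e : (1 - π * (q * v.2 + q' * w.2)) * A - (A - π * (q * v.1 + q' * w.1)) =
        -(π * q) * (v.2 * A - v.1) - π * q' * (w.2 * A - w.1) := by ring
    change P ∣ (1 - π * (q * v.2 + q' * w.2)) * A - (A - π * (q * v.1 + q' * w.1))
    rw [e]
    exact dvd_sub (hv.mul_left _) (hw.mul_left _)
  · unfold sn
    exact max_le k1 k2

/-- the product of the size of the best fraction and the length of the shortest vector -/
theorem sz_l1 (hd : 1 ≤ d) (π : R) (hπ : π ≠ 0) : ∃ C : ℕ, 1 ≤ C ∧ ∀ (N n : ℕ) (P A : R)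
    (cl : R → Fin n → Fin N), (∀ x y, cl x = cl y → P ∣ x - y) → P ≠ 0 → 1 ≤ N →
    (sz b π P A * l1 b P A) ^ d ≤ C * N ^ n := by
  obtain ⟨C, hC, hgen⟩ := generate b π hπ
  refine ⟨(2 * C) ^ d * 3 ^ d, by
    have : 0 < (2 * C) ^ d * 3 ^ d := by positivity
    exact this, ?_⟩
  intro N n P A cl hcl hP hN
  obtain ⟨v1, hv1, hv1d, hv1s⟩ := l1_spec b P A
  set l := l1 b P A with hl
  have hlpos : 1 ≤ l := l1_pos b P A
  have hNn : 1 ≤ N ^ n := Nat.one_le_pow _ _ hN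
  -- Minkowski
  have hmink : l ^ (2 * d) ≤ N ^ n := by
    by_contra hcon
    push Not at hcon
    have := thue b P A cl hcl l hcon
    omega
  -- choice of X
  have hex : ∃ X : ℕ, N ^ n * 3 ^ d < (X * l) ^ d := by
    refine ⟨N ^ n * 3 ^ d + 1, ?_⟩
    calc N ^ n * 3 ^ d < N ^ n * 3 ^ d + 1 := Nat.lt_succ_self _
      _ ≤ (N ^ n * 3 ^ d + 1) * l := Nat.le_mul_of_pos_right _ hlpos
      _ ≤ ((N ^ n * 3 ^ d + 1) * l) ^ d := Nat.le_self_pow (by omega) _
  classical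
  obtain ⟨X, hX, hmin⟩ : ∃ X : ℕ, N ^ n * 3 ^ d < (X * l) ^ d ∧ ∀ Y < X,
      (Y * l) ^ d ≤ N ^ n * 3 ^ d :=
    ⟨Nat.find hex, Nat.find_spec hex, fun Y hY => not_lt.1 (Nat.find_min hex hY)⟩
  have hlX : l < X := by
    by_contra hcon
    push Not at hcon
    have h1 : (X * l) ^ d ≤ (l * l) ^ d := Nat.pow_le_pow_left (Nat.mul_le_mul_right _ hcon) d
    have h2 : (l * l) ^ d = l ^ (2 * d) := by rw [pow_mul, sq]
    have h3 : N ^ n ≤ N ^ n * 3 ^ d := Nat.le_mul_of_pos_right _ (by positivity)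
    omega
  obtain ⟨w, hw1, hw2, hw3⟩ := second b P A cl hcl v1 hv1 X hlX.le hX
  have h1 := hgen P A v1 w X hv1d hw1 hP hw3 (by omega) hw2
  have h2 : X ≤ 2 * (X - 1) := by omega
  have h3 := hmin (X - 1) (by omega)
  calc (sz b π P A * l) ^ d ≤ (C * (2 * (X - 1)) * l) ^ d := by
        apply Nat.pow_le_pow_left
        exact Nat.mul_le_mul_right _ (h1.trans (Nat.mul_le_mul_left _ h2))
    _ = (2 * C) ^ d * ((X - 1) * l) ^ d := by rw [← mul_pow]; congr 1; ring
    _ ≤ (2 * C) ^ d * (N ^ n * 3 ^ d) := Nat.mul_le_mul_left _ h3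
    _ = (2 * C) ^ d * 3 ^ d * N ^ n := by ring

end

end Pool.Agent.Y540.Pia
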