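import Mathlib

/-!
`π`-adic complexity of sequences, in a ring `R = ℤ[π]` with the `ℤ`-basis `b = (1, π, …, π^(d-1))`.
-/

set_option autoImplicit false

namespace Pool.Agent.Y540.Pia

open Finset Module

section
variable {R : Type} [CommRing R]

/-- `a_0 + a_1 π + ⋯ + a_{k-1} π^{k-1}` -/
def val {N : ℕ} (π : R) (a : ℕ → Fin N) (k : ℕ) : R := ∑ i ∈ range k, ((a i : ℕ) : R) * π ^ i

/-- The `π`-adic number `a_0 + a_1 π + ⋯` is `f / g`, where `g` is invertible modulo `π`:
`g * (a_0 + a_1 π + ⋯) = f` modulo all powers of `π`. -/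
def Rep {N : ℕ} (π : R) (a : ℕ → Fin N) (f g : R) : Prop :=
  (∃ u, π ∣ u * g - 1) ∧ ∀ k : ℕ, π ^ k ∣ g * val π a k - f

/-- `π`-adic complexity of an infinite sequence: the least size `max (φ f, φ g)` of a
representation `f / g` of its `π`-adic number (`∞` if there is none). -/
noncomputable def lam {N : ℕ} (φ : R → EReal) (π : R) (a : ℕ → Fin N) : EReal :=
  ⨅ (f : R) (g : R) (_ : Rep π a f g), max (φ f) (φ g)

/-- `π`-adic complexity of a finite sequence: the minimum over all infinite extensions. -/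
noncomputable def lamFin {N n : ℕ} (φ : R → EReal) (π : R) (a : Fin n → Fin N) : EReal :=
  ⨅ (s : ℕ → Fin N) (_ : ∀ i : Fin n, s i = a i), lam φ π s

/-- The average of the `π`-adic complexity over all sequences of length `n`. -/
noncomputable def Efin (φ : R → EReal) (π : R) (N n : ℕ) : ℝ :=
  (∑ a : Fin n → Fin N, (lamFin φ π a).toReal) / (N : ℝ) ^ n

/-- Case (i): `φ (u + v π) = log_N (u² + N v²)`, and `φ 0 = -∞`. -/
noncomputable def phi1 (b : Basis (Fin 2) ℤ R) (N : ℕ) (x : R) : EReal :=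
  open scoped Classical in
  if x = 0 then ⊥ else
    ((Real.logb N ((b.repr x 0 : ℝ) ^ 2 + N * (b.repr x 1 : ℝ) ^ 2) : ℝ) : EReal)

/-- Case (ii): `φ (∑ u_i π^i) = max (d log_N |u_i| + i)`, the maximum over the `i` with `u_i ≠ 0`. -/
noncomputable def phi2 {d : ℕ} (b : Basis (Fin d) ℤ R) (N : ℕ) (x : R) : EReal :=
  ⨆ (i : Fin d) (_ : b.repr x i ≠ 0),
    ((d * Real.logb N |(b.repr x i : ℝ)| + (i : ℕ) : ℝ) : EReal)

end

end Pool.Agent.Y540.Pia
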