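import Mathlib
import Pool.Agent.Y540.PiaD
import Pool.Agent.Y540.PiaDefs

/-!
Digits to the base `π`.
-/

set_option autoImplicit false

namespace Pool.Agent.Y540.Pia

open Finset Module

section
variable {R : Type} [CommRing R]

/-- value of a finite sequence -/
def vala {N n : ℕ} (π : R) (a : Fin n → Fin N) : R := ∑ i : Fin n, ((a i : ℕ) : R) * π ^ (i : ℕ)

theorem val_ext {N n : ℕ} (π : R) {a : Fin n → Fin N} {s : ℕ → Fin N} (h : ∀ i : Fin n, s i = a i) :
    val π s n = vala π a := by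
  unfold val vala
  rw [← Fin.sum_univ_eq_sum_range (fun i => ((s i : ℕ) : R) * π ^ i)]
  refine sum_congr rfl fun i _ => ?_
  rw [h i]

theorem val_dvd {N : ℕ} (π : R) (a : ℕ → Fin N) (k m : ℕ) :
    π ^ k ∣ val π a (k + m) - val π a k := by
  unfold val
  rw [sum_range_add, add_sub_cancel_left]
  refine dvd_sum fun i _ => ?_
  rw [pow_add]
  exact Dvd.intro_left (((a (k + i) : ℕ) : R) * π ^ i) (by ring)

/-- the data -/
structure Data {d : ℕ} (b : Basis (Fin d) ℤ R) (π : R) (N : ℕ) (c : ℤ) : Prop where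
  hd : 1 ≤ d
  hN : 2 ≤ N
  hb : ∀ i : Fin d, b i = π ^ (i : ℕ)
  hc : c.natAbs = N
  hπ : π ^ d = (c : R)

variable {d : ℕ} {b : Basis (Fin d) ℤ R} {π : R} {N : ℕ} {c : ℤ}

theorem Data.one_eq (D : Data b π N c) : b ⟨0, D.hd⟩ = 1 := by
  rw [D.hb]; simp

theorem Data.c_ne (D : Data b π N c) : c ≠ 0 := by
  intro h
  have h1 := D.hc
  have h2 := D.hN
  rw [h] at h1
  simp at h1
  omega

theorem Data.pi_dvd_c (D : Data b π N c) : π ∣ (c : R) := by
  rw [← D.hπ]
  exact dvd_pow_self π (by have := D.hd; omega)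

/-- first digit -/
theorem Data.digit (D : Data b π N c) (x : R) : ∃ δ : Fin N, π ∣ x - ((δ : ℕ) : R) := by
  classical
  have hd := D.hd
  set x0 := b.repr x ⟨0, hd⟩ with hx0
  have h1 := Int.emod_nonneg x0 D.c_ne
  have h2 := Int.emod_lt_abs x0 D.c_ne
  have h3 := Int.abs_eq_natAbs c
  rw [D.hc] at h3
  refine ⟨⟨(x0 % c).toNat, by omega⟩, ?_⟩
  have e1 : x = ∑ i, b.repr x i • b i := (b.sum_repr x).symm
  have e2 : x = x0 • (1 : R) + ∑ i ∈ univ.erase (⟨0, hd⟩ : Fin d), b.repr x i • b i := by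
    conv_lhs => rw [e1]
    rw [← add_sum_erase univ _ (mem_univ (⟨0, hd⟩ : Fin d)), D.one_eq]
  have e3 : x - (((x0 % c).toNat : ℕ) : R) = (x0 / c : ℤ) * (c : R) +
      ∑ i ∈ univ.erase (⟨0, hd⟩ : Fin d), b.repr x i • b i := by
    have e4 : (((x0 % c).toNat : ℕ) : R) = ((x0 % c : ℤ) : R) := by
      have : (((x0 % c).toNat : ℕ) : ℤ) = x0 % c := Int.toNat_of_nonneg h1
      exact_mod_cast congrArg (Int.cast : ℤ → R) this
    have e5 : (x0 : R) = ((x0 % c : ℤ) : R) + (c : R) * ((x0 / c : ℤ) : R) := by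
      exact_mod_cast congrArg (Int.cast : ℤ → R) (Int.emod_add_mul_ediv x0 c).symm
    conv_lhs => rw [e2]
    rw [e4, zsmul_eq_mul, mul_one, e5]
    ring
  change π ∣ x - (((x0 % c).toNat : ℕ) : R)
  rw [e3]
  refine dvd_add (D.pi_dvd_c.mul_left _) (dvd_sum fun i hi => ?_)
  have hi0 : (i : ℕ) ≠ 0 := by
    intro h
    rw [mem_erase] at hi
    exact hi.1 (Fin.ext h)
  rw [D.hb, zsmul_eq_mul]
  exact (dvd_pow_self π hi0).mul_left _

/-- integers divisible by `π` are divisible by `N` -/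
theorem Data.int_dvd (D : Data b π N c) (m : ℤ) (h : π ∣ (m : R)) : (N : ℤ) ∣ m := by
  classical
  have hd := D.hd
  obtain ⟨y, hy⟩ := h
  have e1 : b.repr (m : R) ⟨0, hd⟩ = m := by
    have : (m : R) = m • b ⟨0, hd⟩ := by rw [D.one_eq, zsmul_eq_mul, mul_one]
    rw [this, map_zsmul, b.repr_self]
    change m * _ = m
    rw [Finsupp.single_eq_same, mul_one]
  have e2 : c ∣ b.repr (π * y) ⟨0, hd⟩ := by
    have e3 : π * y = ∑ j, b.repr y j • π ^ ((j : ℕ) + 1) := by
      conv_lhs => rw [← b.sum_repr y]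
      rw [mul_sum]
      refine sum_congr rfl fun j _ => ?_
      rw [D.hb, mul_smul_comm, pow_succ']
    rw [e3, map_sum, Finsupp.finsetSum_apply]
    refine dvd_sum fun j _ => ?_
    rw [map_zsmul]
    change c ∣ b.repr y j * b.repr (π ^ ((j : ℕ) + 1)) ⟨0, hd⟩
    by_cases hj : (j : ℕ) + 1 < d
    · have : π ^ ((j : ℕ) + 1) = b ⟨(j : ℕ) + 1, hj⟩ := by rw [D.hb]
      rw [this, b.repr_self, Finsupp.single_eq_of_ne (by
        intro h
        have := congrArg Fin.val h
        simp at this)]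
      simp
    · have hj2 : (j : ℕ) + 1 = d := by have := j.2; omega
      rw [hj2, D.hπ]
      have : (c : R) = c • b ⟨0, hd⟩ := by rw [D.one_eq, zsmul_eq_mul, mul_one]
      rw [this, map_zsmul, b.repr_self]
      change c ∣ _ * (c * _)
      exact ⟨b.repr y j * (Finsupp.single (⟨0, hd⟩ : Fin d) (1 : ℤ)) ⟨0, hd⟩, by ring⟩
  rw [← hy, e1] at e2
  rw [← D.hc]
  exact Int.natAbs_dvd.2 e2

variable [IsDomain R]

theorem Data.pi_ne (D : Data b π N c) : π ≠ 0 := by
  intro h
  have hN := D.hN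
  have h2 : (c : R) = 0 := by
    rw [← D.hπ, h, zero_pow (by have := D.hd; omega)]
  have h3 : (c : R) = c • (1 : R) := by rw [zsmul_eq_mul, mul_one]
  have h4 : nm b (c • (1 : R)) = 0 := by rw [← h3, h2, nm_zero]
  rw [nm_zsmul, D.hc] at h4
  have h5 := nm_pos b (one_ne_zero (α := R))
  rcases Nat.mul_eq_zero.1 h4 with h6 | h6 <;> omega

/-- digits are unique -/
theorem Data.digits_unique (D : Data b π N c) (k : ℕ) (s t : ℕ → Fin N)
    (h : π ^ k ∣ val π s k - val π t k) : ∀ i < k, s i = t i := by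
  intro i
  induction i using Nat.strong_induction_on with
  | _ i ih =>
    intro hi
    have h1 : val π s k - val π t k = ∑ j ∈ range k, (((s j : ℕ) : R) - ((t j : ℕ) : R)) * π ^ j := by
      unfold val
      rw [← sum_sub_distrib]
      refine sum_congr rfl fun j _ => ?_
      ring
    obtain ⟨m, rfl⟩ : ∃ m, k = (i + 1) + m := ⟨k - (i + 1), by omega⟩
    rw [h1, sum_range_add, sum_range_succ] at h
    have h2 : ∑ j ∈ range i, (((s j : ℕ) : R) - ((t j : ℕ) : R)) * π ^ j = 0 := by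
      apply sum_eq_zero
      intro j hj
      rw [mem_range] at hj
      rw [ih j hj (by omega)]
      ring
    rw [h2, zero_add] at h
    have h3 : π ^ (i + 1) ∣ (((s i : ℕ) : R) - ((t i : ℕ) : R)) * π ^ i := by
      have h4 : π ^ (i + 1) ∣ ∑ x ∈ range m, (((s (i + 1 + x) : ℕ) : R) - ((t (i + 1 + x) : ℕ) : R)) *
          π ^ (i + 1 + x) := by
        refine dvd_sum fun j _ => ?_
        rw [pow_add]
        exact Dvd.intro_left ((((s (i + 1 + j) : ℕ) : R) - ((t (i + 1 + j) : ℕ) : R)) * π ^ j) (by ring)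
      have h5 := (pow_dvd_pow π (by omega : i + 1 ≤ i + 1 + m)).trans h
      exact (dvd_add_left h4).1 h5
    have h4 : π ∣ ((s i : ℕ) : R) - ((t i : ℕ) : R) := by
      have h5 : π ^ i ≠ 0 := pow_ne_zero _ D.pi_ne
      rw [pow_succ, mul_comm (π ^ i) π] at h3
      exact (mul_dvd_mul_iff_right h5).1 h3
    have h5 : (N : ℤ) ∣ ((s i : ℕ) : ℤ) - ((t i : ℕ) : ℤ) := by
      apply D.int_dvd
      push_cast
      exact h4
    have h6 := (s i).2
    have h7 := (t i).2
    have h8 : ((s i : ℕ) : ℤ) - ((t i : ℕ) : ℤ) = 0 := by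
      apply Int.eq_zero_of_abs_lt_dvd h5
      rw [abs_lt]
      constructor <;> omega
    exact Fin.ext (by omega)

omit [IsDomain R] in
/-- expansion of `f / g` -/
theorem Data.expand (D : Data b π N c) (f g u : R) (hu : π ∣ u * g - 1) :
    ∃ (s : ℕ → Fin N) (r : ℕ → R), ∀ k, f = g * val π s k + π ^ k * r k := by
  choose δ hδ using D.digit
  have hstep : ∀ r : R, π ∣ r - g * ((δ (u * r) : ℕ) : R) := by
    intro r
    have e : r - g * ((δ (u * r) : ℕ) : R) = -(u * g - 1) * r + g * (u * r - ((δ (u * r) : ℕ) : R)) := by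
      ring
    rw [e]
    exact dvd_add ((hu.neg_right).mul_right r) ((hδ _).mul_left g)
  choose q hq using hstep
  set r : ℕ → R := fun k => Nat.rec f (fun _ x => q x) k with hr
  have hr0 : r 0 = f := rfl
  have hrs : ∀ k, r (k + 1) = q (r k) := fun k => rfl
  refine ⟨fun k => δ (u * r k), r, fun k => ?_⟩
  induction k with
  | zero => simp [val, hr0]
  | succ k ih =>
    have h1 := hq (r k)
    rw [← hrs] at h1
    unfold val at ih ⊢
    rw [sum_range_succ, pow_succ]
    conv_lhs => rw [ih]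
    linear_combination (π ^ k) * h1

omit [IsDomain R] in
/-- residue classes modulo `π ^ n` -/
theorem Data.classes (D : Data b π N c) (n : ℕ) :
    ∃ cl : R → Fin n → Fin N, ∀ x y, cl x = cl y → π ^ n ∣ x - y := by
  have h : ∀ x : R, ∃ (s : ℕ → Fin N) (r : ℕ → R), ∀ k, x = 1 * val π s k + π ^ k * r k :=
    fun x => D.expand x 1 1 (by simp)
  choose s r hs using h
  refine ⟨fun x i => s x i, fun x y hxy => ?_⟩
  have h1 : val π (s x) n = val π (s y) n := by
    rw [val_ext π (a := fun i : Fin n => s x i) (fun _ => rfl),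
      val_ext π (a := fun i : Fin n => s y i) (fun _ => rfl)]
    exact congrArg (vala π) hxy
  refine ⟨r x n - r y n, ?_⟩
  have e1 := hs x n
  have e2 := hs y n
  rw [h1] at e1
  linear_combination e1 - e2

/-- injectivity of the value -/
theorem Data.vala_inj (D : Data b π N c) {n : ℕ} {a a' : Fin n → Fin N}
    (h : π ^ n ∣ vala π a - vala π a') : a = a' := by
  have hN := D.hN
  set z : Fin N := ⟨0, by omega⟩
  set s : ℕ → Fin N := fun i => if hi : i < n then a ⟨i, hi⟩ else z with hs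
  set t : ℕ → Fin N := fun i => if hi : i < n then a' ⟨i, hi⟩ else z with ht
  have h1 : ∀ i : Fin n, s i = a i := fun i => by simp [hs]
  have h2 : ∀ i : Fin n, t i = a' i := fun i => by simp [ht]
  rw [← val_ext π h1, ← val_ext π h2] at h
  have h3 := D.digits_unique n s t h
  ext i
  rw [← h1 i, ← h2 i, h3 i i.2]

omit [IsDomain R] in
theorem Data.norm_pi (D : Data b π N c) : (Algebra.norm ℤ π).natAbs = N := by
  have h1 : Algebra.norm ℤ ((algebraMap ℤ R) c) = c ^ Fintype.card (Fin d) :=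
    Algebra.norm_algebraMap_of_basis b c
  have h2 : (algebraMap ℤ R) c = π ^ d := by rw [D.hπ]; rfl
  rw [h2, map_pow, Fintype.card_fin] at h1
  have h3 := congrArg Int.natAbs h1
  rw [Int.natAbs_pow, Int.natAbs_pow, D.hc] at h3
  exact Nat.pow_left_injective (by have := D.hd; omega) h3

end

end Pool.Agent.Y540.Pia
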