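import Mathlib
import Pool.Agent.Y540.PiaE
import Pool.Agent.Y540.NadC

/-!
Counting, and averages of logarithms.
-/

set_option autoImplicit false

namespace Pool.Agent.Y540.Pia

open Finset Module

theorem sum_inv_le {ι : Type*} (s : Finset ι) (F : ι → ℕ) (c D : ℕ) (hD : 2 ≤ D) (r : ℝ)
    (hr : 0 < r) (hrD : r ^ D = s.card) (hF : ∀ i ∈ s, 1 ≤ F i)
    (hc : ∀ Y : ℕ, 1 ≤ Y → (s.filter (fun i => F i ≤ Y)).card ≤ c * Y ^ D) :
    ∑ i ∈ s, (1 : ℝ) / F i ≤ (c + 1) * (s.card / r) := by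
  classical
  set M := s.card with hM
  set T := ⌊r⌋₊ with hT
  have hT1 : (T : ℝ) ≤ r := Nat.floor_le hr.le
  have hT2 : r < T + 1 := Nat.lt_floor_add_one r
  have h1 : ∑ i ∈ s, (1 : ℝ) / F i ≤ ∑ i ∈ s, (1 / ((T : ℝ) + 1) +
      ∑ Y ∈ Icc 1 T, (if F i ≤ Y then (1 : ℝ) / (Y * (Y + 1)) else 0)) :=
    sum_le_sum fun i hi => Pool.Agent.Y540.Nad.inv_le_aux (F i) (hF i hi) T
  rw [sum_add_distrib, sum_const, sum_comm, nsmul_eq_mul, ← hM] at h1
  obtain ⟨D', rfl⟩ : ∃ D', D = D' + 2 := ⟨D - 2, by omega⟩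
  have h2 : ∑ Y ∈ Icc 1 T, ∑ i ∈ s, (if F i ≤ Y then (1 : ℝ) / (Y * (Y + 1)) else 0) ≤
      ∑ Y ∈ Icc 1 T, (c : ℝ) * r ^ D' := by
    refine sum_le_sum fun Y hY => ?_
    rw [mem_Icc] at hY
    rw [← sum_filter, sum_const, nsmul_eq_mul]
    have h3 : ((s.filter (fun i => F i ≤ Y)).card : ℝ) ≤ c * (Y : ℝ) ^ (D' + 2) := by
      exact_mod_cast hc Y hY.1
    have hY0 : (0 : ℝ) < Y := by exact_mod_cast hY.1
    have hYr : (Y : ℝ) ≤ r := le_trans (by exact_mod_cast hY.2) hT1
    rw [mul_one_div, div_le_iff₀ (by positivity)]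
    refine h3.trans ?_
    have h4 : (Y : ℝ) ^ D' ≤ r ^ D' := pow_le_pow_left₀ hY0.le hYr _
    calc (c : ℝ) * (Y : ℝ) ^ (D' + 2) = c * (Y : ℝ) ^ D' * (Y * Y) := by ring
      _ ≤ c * r ^ D' * (Y * (Y + 1)) := by
          gcongr
          linarith
  rw [sum_const, Nat.card_Icc, nsmul_eq_mul] at h2
  have h4 : (M : ℝ) * (1 / ((T : ℝ) + 1)) ≤ M / r := by
    rw [mul_one_div]
    exact div_le_div_of_nonneg_left (Nat.cast_nonneg _) hr hT2.le
  have h6 : ((T + 1 - 1 : ℕ) : ℝ) * ((c : ℝ) * r ^ D') ≤ c * (M / r) := by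
    rw [Nat.add_sub_cancel]
    have e : (M : ℝ) / r = r ^ D' * r := by
      rw [← hrD, div_eq_iff hr.ne']
      ring
    rw [e]
    calc (T : ℝ) * ((c : ℝ) * r ^ D') ≤ r * ((c : ℝ) * r ^ D') := by gcongr
      _ = c * (r ^ D' * r) := by ring
  calc ∑ i ∈ s, (1 : ℝ) / F i ≤ _ := h1
    _ ≤ M / r + c * (M / r) := add_le_add h4 (h2.trans h6)
    _ = _ := by ring

/-- average of `-log F` for a function with few small values -/
theorem sum_neg_log_le {ι : Type*} (s : Finset ι) (F : ι → ℕ) (c D : ℕ) (hD : 2 ≤ D) (r : ℝ)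
    (hr : 0 < r) (hrD : r ^ D = s.card) (hs : s.Nonempty) (hF : ∀ i ∈ s, 1 ≤ F i)
    (hc : ∀ Y : ℕ, 1 ≤ Y → (s.filter (fun i => F i ≤ Y)).card ≤ c * Y ^ D) :
    -∑ i ∈ s, Real.log (F i) ≤ s.card * (Real.log (c + 1) - Real.log r) := by
  have hcard : (0 : ℝ) < s.card := by exact_mod_cast card_pos.2 hs
  have h1 := Pool.Agent.Y540.Nad.sum_log_le s (fun i => (1 : ℝ) / F i) hs (fun i hi => by
    have : (0 : ℝ) < F i := by exact_mod_cast hF i hi
    positivity)
  have h2 := sum_inv_le s F c D hD r hr hrD hF hc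
  have h3 : ∑ i ∈ s, Real.log (1 / (F i : ℝ)) = -∑ i ∈ s, Real.log (F i) := by
    rw [← sum_neg_distrib]
    refine sum_congr rfl fun i _ => ?_
    rw [one_div, Real.log_inv]
  rw [h3] at h1
  refine h1.trans ?_
  refine mul_le_mul_of_nonneg_left ?_ hcard.le
  have hpos : 0 < ∑ i ∈ s, (1 : ℝ) / F i := by
    apply sum_pos _ hs
    intro i hi
    have : (0 : ℝ) < F i := by exact_mod_cast hF i hi
    positivity
  calc Real.log ((∑ i ∈ s, (1 : ℝ) / F i) / s.card)
      ≤ Real.log ((c + 1) * (s.card / r) / s.card) := by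
        apply Real.log_le_log (by positivity)
        gcongr
    _ = Real.log ((c + 1) / r) := by
        congr 1
        field_simp
    _ = Real.log (c + 1) - Real.log r := by
        rw [Real.log_div (by positivity) hr.ne']

section
variable {R : Type} [CommRing R] [IsDomain R] {d : ℕ} {b : Basis (Fin d) ℤ R} {π : R} {N : ℕ}
  {c : ℤ}

omit [IsDomain R] in
/-- elements with small coordinates -/
theorem card_small (b : Basis (Fin d) ℤ R) (Y : ℕ) (hY : 1 ≤ Y) (S : Finset R)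
    (hS : ∀ x ∈ S, nm b x ≤ Y) : S.card ≤ (3 * Y) ^ d := by
  classical
  have h1 : (Fintype.piFinset (fun _ : Fin d => Icc (-(Y : ℤ)) Y)).card ≤ (3 * Y) ^ d := by
    rw [Fintype.card_piFinset_const, Int.card_Icc]
    apply Nat.pow_le_pow_left
    omega
  refine le_trans (card_le_card_of_injOn (fun x => (b.repr x : Fin d → ℤ)) ?_ ?_) h1
  · intro x hx
    rw [mem_coe] at hx
    rw [mem_coe, Fintype.mem_piFinset]
    intro i
    have h2 := le_nm b x i
    have h3 := hS x hx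
    change b.repr x i ∈ Icc (-(Y : ℤ)) Y
    rw [mem_Icc]
    omega
  · intro x _ y _ hxy
    apply b.repr.injective
    exact DFunLike.coe_injective hxy

theorem Data.count_sz (D : Data b π N c) (n Y : ℕ) (hY : 1 ≤ Y) :
    ((univ : Finset (Fin n → Fin N)).filter (fun a => sz b π (π ^ n) (vala π a) ≤ Y)).card ≤
      9 ^ d * Y ^ (2 * d) := by
  classical
  choose v hv1 hv2 hv3 using fun a : Fin n → Fin N => sz_spec b π (π ^ n) (vala π a)
  set S := (univ : Finset (Fin n → Fin N)).filter (fun a => sz b π (π ^ n) (vala π a) ≤ Y) with hS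
  have hinj : Set.InjOn v S := by
    intro a _ a' _ h
    apply D.vala_inj
    have h1 := hv2 a
    have h2 := hv2 a'
    rw [← h] at h2
    have h3 := dvd_sub h1 h2
    have e : (v a).2 * vala π a - (v a).1 - ((v a).2 * vala π a' - (v a).1) =
        (v a).2 * (vala π a - vala π a') := by ring
    rw [e] at h3
    obtain ⟨u, w, hu⟩ := hv1 a
    have hcop : IsCoprime π (v a).2 := ⟨-w, u, by linear_combination hu⟩
    exact (hcop.pow_left).dvd_of_dvd_mul_left h3
  have h1 : (S.image v).card = S.card := card_image_of_injOn hinj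
  have h2 : S.image v ⊆ ((S.image v).image Prod.fst) ×ˢ ((S.image v).image Prod.snd) := by
    intro x hx
    rw [mem_product]
    exact ⟨mem_image_of_mem _ hx, mem_image_of_mem _ hx⟩
  have h3 := card_le_card h2
  rw [card_product, h1] at h3
  have hY' : ∀ a ∈ S, sn b (v a) ≤ Y := by
    intro a ha
    rw [hv3]
    exact (mem_filter.1 ha).2
  have h4 : ((S.image v).image Prod.fst).card ≤ (3 * Y) ^ d := by
    apply card_small b Y hY
    intro x hx
    simp only [mem_image] at hx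
    obtain ⟨_, ⟨a, ha, rfl⟩, rfl⟩ := hx
    have := hY' a ha
    unfold sn at this
    omega
  have h5 : ((S.image v).image Prod.snd).card ≤ (3 * Y) ^ d := by
    apply card_small b Y hY
    intro x hx
    simp only [mem_image] at hx
    obtain ⟨_, ⟨a, ha, rfl⟩, rfl⟩ := hx
    have := hY' a ha
    unfold sn at this
    omega
  calc S.card ≤ (3 * Y) ^ d * (3 * Y) ^ d := h3.trans (Nat.mul_le_mul h4 h5)
    _ = 9 ^ d * Y ^ (2 * d) := by
        rw [← mul_pow, pow_mul, ← mul_pow]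
        congr 1
        ring

/-- the residues `A` with `g A` congruent to a small element -/
theorem Data.count_one (D : Data b π N c) (C : ℕ) (hC1 : 1 ≤ C)
    (hC : ∀ x : R, (Algebra.norm ℤ x).natAbs ≤ C * nm b x ^ d) (n Y : ℕ) (hY : 1 ≤ Y)
    (g : R) (hg : g ≠ 0) (hgY : nm b g ≤ Y) (S : Finset (Fin n → Fin N))
    (hS : ∀ a ∈ S, ∃ f, nm b f ≤ Y ∧ π ^ n ∣ g * vala π a - f) :
    S.card ≤ C * (3 * Y) ^ d := by
  classical
  have hd := D.hd
  have hfree : Module.Free ℤ R := Module.Free.of_basis b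
  have hfinite : Module.Finite ℤ R := Module.Finite.of_basis b
  set ν := (Algebra.norm ℤ g).natAbs with hν
  have hν0 : 1 ≤ ν := Int.natAbs_pos.2 (Algebra.norm_ne_zero_iff.2 hg)
  have hνY : ν ≤ C * Y ^ d := (hC g).trans (Nat.mul_le_mul_left _ (Nat.pow_le_pow_left hgY d))
  have hex : ∃ m : ℕ, ν ≤ C * m ^ d := ⟨Y, hνY⟩
  obtain ⟨m, hm, hmin⟩ : ∃ m : ℕ, ν ≤ C * m ^ d ∧ ∀ k < m, C * k ^ d < ν :=
    ⟨Nat.find hex, Nat.find_spec hex, fun k hk => not_le.1 (Nat.find_min hex hk)⟩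
  have hm1 : 1 ≤ m := by
    rcases Nat.eq_zero_or_pos m with h | h
    · rw [h, zero_pow (by omega)] at hm
      omega
    · exact h
  have hmY : m ≤ Y := by
    by_contra hcon
    push Not at hcon
    have := hmin Y hcon
    omega
  -- nonzero multiples of `g` are not small
  have hsep : ∀ t : R, g * t ≠ 0 → m ≤ nm b (g * t) := by
    intro t ht
    by_contra hcon
    push Not at hcon
    have h1 := hmin _ hcon
    have h2 := hC (g * t)
    rw [map_mul, Int.natAbs_mul, ← hν] at h2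
    have h3 : t ≠ 0 := right_ne_zero_of_mul ht
    have h4 : 1 ≤ (Algebra.norm ℤ t).natAbs :=
      Int.natAbs_pos.2 (Algebra.norm_ne_zero_iff.2 h3)
    have h5 : ν ≤ ν * (Algebra.norm ℤ t).natAbs := Nat.le_mul_of_pos_right _ h4
    omega
  have hq : ∀ a : Fin n → Fin N, ∃ fq : R × R, a ∈ S → nm b fq.1 ≤ Y ∧
      g * vala π a - fq.1 = π ^ n * fq.2 := by
    intro a
    by_cases ha : a ∈ S
    · obtain ⟨f, h1, q, h2⟩ := hS a ha
      exact ⟨(f, q), fun _ => ⟨h1, h2⟩⟩
    · exact ⟨(0, 0), fun h => absurd h ha⟩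
  choose fq hfq using hq
  set G : Submodule ℤ R := LinearMap.range (LinearMap.mulLeft ℤ g) with hG
  have hcardG : Nat.card (R ⧸ G) = ν := card_quot b g hg
  have hfinG : Finite (R ⧸ G) := Nat.finite_of_card_ne_zero (by rw [hcardG]; omega)
  have hftG : Fintype (R ⧸ G) := Fintype.ofFinite _
  set K := 2 * Y / m + 1 with hK
  have hbox : ∀ a ∈ S, ∀ i, ((b.repr (fq a).1 i + Y) / (m : ℤ)).toNat < K := by
    intro a ha i
    have h1 := le_nm b (fq a).1 i
    have h2 := (hfq a ha).1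
    have h3 : (b.repr (fq a).1 i + Y) / (m : ℤ) ≤ (2 * Y : ℤ) / m :=
      Int.ediv_le_ediv (by omega) (by omega)
    have h4 : ((2 * Y / m : ℕ) : ℤ) = (2 * Y : ℤ) / m := by push_cast; rfl
    rw [← h4] at h3
    exact Nat.lt_succ_of_le (Int.toNat_le.2 h3)
  have hbox0 : ∀ a ∈ S, ∀ i, 0 ≤ (b.repr (fq a).1 i + Y) / (m : ℤ) := by
    intro a ha i
    have h1 := le_nm b (fq a).1 i
    have h2 := (hfq a ha).1
    exact Int.ediv_nonneg (by omega) (by omega)
  have hT : ((univ : Finset (R ⧸ G)) ×ˢ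
      Fintype.piFinset (fun _ : Fin d => range K)).card ≤ C * (3 * Y) ^ d := by
    rw [card_product, card_univ, ← Nat.card_eq_fintype_card, hcardG,
      Fintype.card_piFinset_const, card_range]
    calc ν * K ^ d ≤ C * m ^ d * K ^ d := Nat.mul_le_mul_right _ hm
      _ = C * (m * K) ^ d := by rw [mul_pow]; ring
      _ ≤ C * (3 * Y) ^ d := by
          apply Nat.mul_le_mul_left
          apply Nat.pow_le_pow_left
          rw [hK]
          have := Nat.mul_div_le (2 * Y) m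
          rw [mul_add, mul_one]
          omega
  refine le_trans (card_le_card_of_injOn
    (fun a => ((Submodule.Quotient.mk (fq a).2 : R ⧸ G),
      fun i => ((b.repr (fq a).1 i + Y) / (m : ℤ)).toNat)) ?_ ?_) hT
  · intro a ha
    rw [mem_coe] at ha
    simp only [coe_product, coe_univ, Set.mem_prod, Set.mem_univ, true_and, mem_coe,
      Fintype.mem_piFinset, mem_range]
    exact hbox a ha
  · intro a ha a' ha' h
    rw [mem_coe] at ha ha'
    simp only [Prod.mk.injEq] at h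
    obtain ⟨h1, h2⟩ := h
    rw [Submodule.Quotient.eq] at h1
    obtain ⟨t, ht⟩ := h1
    have ht' : g * t = (fq a).2 - (fq a').2 := ht
    have e1 := (hfq a ha).2
    have e2 := (hfq a' ha').2
    have e3 : g * (vala π a - vala π a' - π ^ n * t) = (fq a).1 - (fq a').1 := by
      linear_combination e1 - e2 - (π ^ n) * ht'
    have h3 : (fq a).1 - (fq a').1 = 0 := by
      by_contra hne
      rw [← e3] at hne
      have h4 := hsep _ hne
      rw [e3] at h4
      have h5 : nm b ((fq a).1 - (fq a').1) ≤ m - 1 := by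
        refine nm_le b fun i => ?_
        have h6 : ((b.repr (fq a).1 i + Y) / (m : ℤ)).toNat =
          ((b.repr (fq a').1 i + Y) / (m : ℤ)).toNat := congrFun h2 i
        have h7 := hbox0 a ha i
        have h8 := hbox0 a' ha' i
        have h9 : (b.repr (fq a).1 i + Y) / (m : ℤ) = (b.repr (fq a').1 i + Y) / (m : ℤ) := by omega
        have hmpos : (0 : ℤ) < m := by omega
        have a1 := Int.emod_add_mul_ediv (b.repr (fq a).1 i + Y) m
        have a2 := Int.emod_add_mul_ediv (b.repr (fq a').1 i + Y) m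
        have a3 := Int.emod_nonneg (b.repr (fq a).1 i + Y) hmpos.ne'
        have a4 := Int.emod_lt_of_pos (b.repr (fq a).1 i + Y) hmpos
        have a5 := Int.emod_nonneg (b.repr (fq a').1 i + Y) hmpos.ne'
        have a6 := Int.emod_lt_of_pos (b.repr (fq a').1 i + Y) hmpos
        rw [h9] at a1
        have e : b.repr ((fq a).1 - (fq a').1) i = b.repr (fq a).1 i - b.repr (fq a').1 i := by
          rw [map_sub]; rfl
        rw [e]
        omega
      omega
    rw [h3] at e3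
    have h4 := (mul_eq_zero.1 e3).resolve_left hg
    apply D.vala_inj
    exact ⟨t, by linear_combination h4⟩

theorem Data.count_l1 (D : Data b π N c) : ∃ C : ℕ, ∀ n Y : ℕ, 1 ≤ Y →
    ((univ : Finset (Fin n → Fin N)).filter (fun a => l1 b (π ^ n) (vala π a) ≤ Y)).card ≤
      C * Y ^ (2 * d) := by
  classical
  obtain ⟨C, hC1, hC⟩ := exists_normC b
  have hd := D.hd
  have hfree : Module.Free ℤ R := Module.Free.of_basis b
  have hfinite : Module.Finite ℤ R := Module.Finite.of_basis b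
  refine ⟨C * 9 ^ d, fun n Y hY => ?_⟩
  rcases Nat.lt_or_ge (C * Y ^ d) (N ^ n) with hbig | hsmall
  swap
  · refine (card_filter_le _ _).trans ?_
    rw [card_univ, Fintype.card_fun, Fintype.card_fin, Fintype.card_fin]
    refine hsmall.trans ?_
    have h1 : Y ^ d ≤ Y ^ (2 * d) := Nat.pow_le_pow_right hY (by omega)
    have h2 : 1 ≤ 9 ^ d := Nat.one_le_pow _ _ (by norm_num)
    calc C * Y ^ d ≤ C * Y ^ (2 * d) := Nat.mul_le_mul_left _ h1
      _ ≤ C * 9 ^ d * Y ^ (2 * d) := Nat.mul_le_mul_right _ (Nat.le_mul_of_pos_right _ h2)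
  choose v hv1 hv2 hv3 using fun a : Fin n → Fin N => l1_spec b (π ^ n) (vala π a)
  set S := (univ : Finset (Fin n → Fin N)).filter (fun a => l1 b (π ^ n) (vala π a) ≤ Y) with hS
  have hY' : ∀ a ∈ S, nm b (v a).1 ≤ Y ∧ nm b (v a).2 ≤ Y := by
    intro a ha
    have h1 := hv3 a
    have h2 := (mem_filter.1 ha).2
    unfold sn at h1
    omega
  have hg0 : ∀ a ∈ S, (v a).2 ≠ 0 := by
    intro a ha h0
    have h1 : (v a).1 ≠ 0 := fun h => hv1 a (Prod.ext h h0)
    have h2 := hv2 a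
    rw [h0, zero_mul, zero_sub, dvd_neg] at h2
    obtain ⟨t, ht⟩ := h2
    have h3 := hC (v a).1
    rw [ht, map_mul, map_pow, Int.natAbs_mul, Int.natAbs_pow, D.norm_pi, ← ht] at h3
    have h4 : t ≠ 0 := by
      rintro rfl
      rw [mul_zero] at ht
      exact h1 ht
    have h5 : 1 ≤ (Algebra.norm ℤ t).natAbs :=
      Int.natAbs_pos.2 (Algebra.norm_ne_zero_iff.2 h4)
    have h6 : N ^ n ≤ N ^ n * (Algebra.norm ℤ t).natAbs := Nat.le_mul_of_pos_right _ h5
    have h7 : C * nm b (v a).1 ^ d ≤ C * Y ^ d :=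
      Nat.mul_le_mul_left _ (Nat.pow_le_pow_left (hY' a ha).1 d)
    omega
  have h1 := card_le_mul_card_image (s := S) (f := fun a => (v a).2) (C * (3 * Y) ^ d) (by
    intro g hg
    rw [mem_image] at hg
    obtain ⟨a0, ha0, rfl⟩ := hg
    refine D.count_one C hC1 hC n Y hY (v a0).2 (hg0 a0 ha0) (hY' a0 ha0).2 _ ?_
    intro a ha
    rw [mem_filter] at ha
    refine ⟨(v a).1, (hY' a ha.1).1, ?_⟩
    rw [← ha.2]
    exact hv2 a)
  have h2 : (S.image (fun a => (v a).2)).card ≤ (3 * Y) ^ d := by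
    apply card_small b Y hY
    intro x hx
    rw [mem_image] at hx
    obtain ⟨a, ha, rfl⟩ := hx
    exact (hY' a ha).2
  calc S.card ≤ C * (3 * Y) ^ d * (S.image (fun a => (v a).2)).card := h1
    _ ≤ C * (3 * Y) ^ d * (3 * Y) ^ d := Nat.mul_le_mul_left _ h2
    _ = C * ((3 * Y) ^ d * (3 * Y) ^ d) := by ring
    _ = C * (9 ^ d * Y ^ (2 * d)) := by
        congr 1
        rw [← mul_pow, pow_mul, ← mul_pow]
        congr 1
        ring
    _ = C * 9 ^ d * Y ^ (2 * d) := by ring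

end

end Pool.Agent.Y540.Pia
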