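import Mathlib
import Pool.Agent.Y540.PiaF

/-!
The average `π`-adic complexity.
-/

set_option autoImplicit false

namespace Pool.Agent.Y540.Pia

open Finset Module

section
variable {R : Type} [CommRing R] {d : ℕ} {b : Basis (Fin d) ℤ R} {π : R} {N : ℕ}
  {c : ℤ}

theorem sz_pos [Nontrivial R] (D : Data b π N c) (P A : R) : 1 ≤ sz b π P A := by
  obtain ⟨v, ⟨u, hu⟩, -, hs⟩ := sz_spec b π P A
  rw [← hs]
  apply sn_pos
  rintro rfl
  have h1 : π ∣ ((1 : ℤ) : R) := by
    have := (dvd_neg).2 hu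
    simpa using this
  have h2 := D.int_dvd 1 h1
  have h3 := Int.le_of_dvd one_pos h2
  have := D.hN
  omega

variable [IsDomain R]

theorem Data.avg (D : Data b π N c) : ∃ C : ℝ, 0 ≤ C ∧ ∀ n : ℕ,
    (N : ℝ) ^ n * (n * Real.log N / (2 * d) - C) ≤
      ∑ a : Fin n → Fin N, Real.log (sz b π (π ^ n) (vala π a)) ∧
    ∑ a : Fin n → Fin N, Real.log (sz b π (π ^ n) (vala π a)) ≤
      (N : ℝ) ^ n * (n * Real.log N / (2 * d) + C) := by
  obtain ⟨C1, h1⟩ := D.count_l1
  obtain ⟨C2, hC2, h2⟩ := sz_l1 b D.hd π D.pi_ne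
  have hd : (0 : ℝ) < d := by exact_mod_cast D.hd
  have hN0 : (0 : ℝ) < N := by exact_mod_cast (by have := D.hN; omega : 0 < N)
  refine ⟨Real.log ((9 : ℝ) ^ d + 1) + (Real.log (C1 + 1) + Real.log C2 / d), ?_, fun n => ?_⟩
  · have a1 : 0 ≤ Real.log ((9 : ℝ) ^ d + 1) := Real.log_nonneg (by
      have : (0 : ℝ) < 9 ^ d := by positivity
      linarith)
    have a2 : 0 ≤ Real.log ((C1 : ℝ) + 1) := Real.log_nonneg (by
      have : (0 : ℝ) ≤ C1 := Nat.cast_nonneg _
      linarith)
    have a3 : 0 ≤ Real.log (C2 : ℝ) := Real.log_nonneg (by exact_mod_cast hC2)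
    positivity
  set S : Finset (Fin n → Fin N) := univ with hS
  have hNN : 0 < N := by have := D.hN; omega
  have hne : S.Nonempty := ⟨fun _ => ⟨0, hNN⟩, mem_univ _⟩
  have hcard : S.card = N ^ n := by
    rw [hS, card_univ, Fintype.card_fun, Fintype.card_fin, Fintype.card_fin]
  set r : ℝ := (N : ℝ) ^ ((n : ℝ) / (2 * d)) with hr
  have hr0 : 0 < r := Real.rpow_pos_of_pos hN0 _
  have hrD : r ^ (2 * d) = S.card := by
    rw [hcard, hr, ← Real.rpow_natCast, ← Real.rpow_mul hN0.le]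
    push_cast
    rw [div_mul_cancel₀ _ (by positivity), Real.rpow_natCast]
  have hlr : Real.log r = n * Real.log N / (2 * d) := by
    rw [hr, Real.log_rpow hN0]; ring
  have a3 : 0 ≤ Real.log (C2 : ℝ) := Real.log_nonneg (by exact_mod_cast hC2)
  have a1 : 0 ≤ Real.log ((9 : ℝ) ^ d + 1) := Real.log_nonneg (by
    have : (0 : ℝ) < 9 ^ d := by positivity
    linarith)
  have a2 : 0 ≤ Real.log ((C1 : ℝ) + 1) := Real.log_nonneg (by
    have : (0 : ℝ) ≤ C1 := Nat.cast_nonneg _
    linarith)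
  have hNn : (0 : ℝ) < (N : ℝ) ^ n := by positivity
  constructor
  · have h3 := sum_neg_log_le S (fun a => sz b π (π ^ n) (vala π a)) (9 ^ d) (2 * d)
      (by have := D.hd; omega) r hr0 hrD hne (fun a _ => sz_pos D _ _)
      (fun Y hY => D.count_sz n Y hY)
    rw [hcard, hlr] at h3
    push_cast at h3
    have h4 : 0 ≤ (N : ℝ) ^ n * (Real.log (C1 + 1) + Real.log C2 / d) := by positivity
    nlinarith
  · have h3 := sum_neg_log_le S (fun a => l1 b (π ^ n) (vala π a)) C1 (2 * d)
      (by have := D.hd; omega) r hr0 hrD hne (fun a _ => l1_pos b _ _)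
      (fun Y hY => h1 n Y hY)
    rw [hcard, hlr] at h3
    push_cast at h3
    obtain ⟨cl, hcl⟩ := D.classes n
    have h4 : ∀ a ∈ S, Real.log (sz b π (π ^ n) (vala π a)) ≤
        (Real.log C2 / d + n * Real.log N / d) - Real.log (l1 b (π ^ n) (vala π a)) := by
      intro a _
      have h5 := h2 N n (π ^ n) (vala π a) cl hcl (pow_ne_zero _ D.pi_ne) hNN
      have h6 : (0 : ℝ) < sz b π (π ^ n) (vala π a) := by exact_mod_cast sz_pos D _ _
      have h7 : (0 : ℝ) < l1 b (π ^ n) (vala π a) := by exact_mod_cast l1_pos b _ _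
      have h8 : ((sz b π (π ^ n) (vala π a) : ℝ) * l1 b (π ^ n) (vala π a)) ^ d ≤
          C2 * (N : ℝ) ^ n := by exact_mod_cast h5
      have h9 := Real.log_le_log (by positivity) h8
      have hC20 : (0 : ℝ) < C2 := by exact_mod_cast hC2
      rw [Real.log_pow, Real.log_mul h6.ne' h7.ne', Real.log_mul hC20.ne' hNn.ne',
        Real.log_pow] at h9
      have h10 : Real.log C2 / d + n * Real.log N / d = (Real.log C2 + n * Real.log N) / d := by
        ring
      rw [h10, le_sub_iff_add_le, le_div_iff₀ hd]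
      linarith
    have h5 := sum_le_sum h4
    rw [sum_sub_distrib, sum_const, hcard, nsmul_eq_mul] at h5
    push_cast at h5
    have h6 : 0 ≤ (N : ℝ) ^ n * Real.log ((9 : ℝ) ^ d + 1) := by positivity
    have h7 : n * Real.log N / d = n * Real.log N / (2 * d) + n * Real.log N / (2 * d) := by
      field_simp
      ring
    rw [h7] at h5
    nlinarith

end

section
variable {R : Type} [CommRing R] {d : ℕ}

/-- the size function is comparable with the logarithm of the sup norm -/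
def Comp (b : Basis (Fin d) ℤ R) (N : ℕ) (K : ℝ) (φ : R → EReal) : Prop :=
  φ 0 = ⊥ ∧ ∀ x : R, x ≠ 0 → ((d * Real.logb N (nm b x) : ℝ) : EReal) ≤ φ x ∧
    φ x ≤ ((d * Real.logb N (nm b x) + K : ℝ) : EReal)

variable {b : Basis (Fin d) ℤ R} {π : R} {N : ℕ} {c : ℤ}

theorem Comp.pair {K : ℝ} {φ : R → EReal} (h : Comp b N K φ) (hN : 2 ≤ N) {v : R × R}
    (hv : v.2 ≠ 0) :
    ((d * Real.logb N (sn b v) : ℝ) : EReal) ≤ max (φ v.1) (φ v.2) ∧
      max (φ v.1) (φ v.2) ≤ ((d * Real.logb N (sn b v) + K : ℝ) : EReal) := by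
  have hN1 : (1 : ℝ) < N := by exact_mod_cast (by omega : 1 < N)
  have hmono : ∀ x y : ℕ, 1 ≤ x → x ≤ y → (d : ℝ) * Real.logb N x ≤ d * Real.logb N y := by
    intro x y hx hxy
    have := Real.logb_le_logb_of_le hN1 (by exact_mod_cast hx : (0 : ℝ) < x)
      (by exact_mod_cast hxy : (x : ℝ) ≤ y)
    exact mul_le_mul_of_nonneg_left this (Nat.cast_nonneg _)
  obtain ⟨h1, h2⟩ := h.2 v.2 hv
  have p2 := nm_pos b hv
  by_cases hf : v.1 = 0
  · have e : sn b v = nm b v.2 := by
      unfold sn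
      rw [hf, nm_zero]
      omega
    rw [e, hf, h.1]
    simp only [bot_le, sup_of_le_right]
    exact ⟨h1, h2⟩
  · obtain ⟨h3, h4⟩ := h.2 v.1 hf
    have p1 := nm_pos b hf
    constructor
    · unfold sn
      rcases le_total (nm b v.1) (nm b v.2) with h5 | h5
      · rw [max_eq_right h5]
        exact h1.trans (le_max_right _ _)
      · rw [max_eq_left h5]
        exact h3.trans (le_max_left _ _)
    · apply max_le
      · refine h4.trans (EReal.coe_le_coe ?_)
        have := hmono (nm b v.1) (sn b v) p1 (le_max_left _ _)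
        linarith
      · refine h2.trans (EReal.coe_le_coe ?_)
        have := hmono (nm b v.2) (sn b v) p2 (le_max_right _ _)
        linarith

theorem finite_sn (b : Basis (Fin d) ℤ R) (B : ℕ) : {v : R × R | sn b v ≤ B}.Finite := by
  have h1 : {x : R | nm b x ≤ B}.Finite := by
    refine Set.Finite.of_finite_image (f := fun x => (b.repr x : Fin d → ℤ)) ?_ ?_
    · refine Set.Finite.subset (Fintype.piFinset (fun _ : Fin d => Icc (-(B : ℤ)) B)).finite_toSet ?_
      rintro _ ⟨x, hx, rfl⟩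
      rw [mem_coe, Fintype.mem_piFinset]
      intro i
      have h2 := le_nm b x i
      have h3 : nm b x ≤ B := hx
      change b.repr x i ∈ Icc (-(B : ℤ)) B
      rw [mem_Icc]
      omega
    · intro x _ y _ hxy
      apply b.repr.injective
      exact DFunLike.coe_injective hxy
  refine (h1.prod h1).subset ?_
  intro v hv
  have h3 : sn b v ≤ B := hv
  unfold sn at h3
  exact ⟨by change nm b v.1 ≤ B; omega, by change nm b v.2 ≤ B; omega⟩

variable [IsDomain R]

theorem Data.lamFin_bounds (D : Data b π N c) {K : ℝ} {φ : R → EReal} (h : Comp b N K φ) (n : ℕ)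
    (a : Fin n → Fin N) :
    ((d * Real.logb N (sz b π (π ^ n) (vala π a)) : ℝ) : EReal) ≤ lamFin φ π a ∧
    lamFin φ π a ≤ ((d * Real.logb N (sz b π (π ^ n) (vala π a)) + K : ℝ) : EReal) ∧
    ∃ (s : ℕ → Fin N) (f g : R), (∀ i : Fin n, s i = a i) ∧ Rep π s f g ∧
      lamFin φ π a = lam φ π s ∧ lam φ π s = max (φ f) (φ g) := by
  have hN := D.hN
  have hN1 : (1 : ℝ) < N := by exact_mod_cast (by omega : 1 < N)
  have hdpos : (0 : ℝ) < d := by exact_mod_cast D.hd
  -- pairs with a unit have nonzero second coordinate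
  have hunit : ∀ g : R, (∃ u, π ∣ u * g - 1) → g ≠ 0 := by
    rintro g ⟨u, hu⟩ rfl
    have h1 : π ∣ ((1 : ℤ) : R) := by
      have := (dvd_neg).2 hu
      simpa using this
    have h2 := D.int_dvd 1 h1
    have h3 := Int.le_of_dvd one_pos h2
    omega
  -- extensions
  have hext : ∀ v : R × R, (∃ u, π ∣ u * v.2 - 1) → π ^ n ∣ v.2 * vala π a - v.1 →
      ∃ s : ℕ → Fin N, (∀ i : Fin n, s i = a i) ∧ Rep π s v.1 v.2 := by
    rintro v ⟨u, hu⟩ hv
    obtain ⟨s, r, hsr⟩ := D.expand v.1 v.2 u hu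
    have h1 : π ^ n ∣ val π s n - vala π a := by
      have h2 := hsr n
      have h3 : π ^ n ∣ v.2 * (val π s n - vala π a) := by
        have e : v.2 * (val π s n - vala π a) = -(π ^ n * r n) - (v.2 * vala π a - v.1) := by
          linear_combination -h2
        rw [e]
        exact dvd_sub ((dvd_neg).2 (Dvd.intro _ rfl)) hv
      obtain ⟨w, hw⟩ := hu
      have hcop : IsCoprime π v.2 := ⟨-w, u, by linear_combination hw⟩
      exact (hcop.pow_left).dvd_of_dvd_mul_left h3
    have h2 : ∀ i : Fin n, s i = a i := by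
      have h3 : val π s n = vala π (fun i : Fin n => s i) := val_ext π (fun _ => rfl)
      rw [h3] at h1
      have h4 := D.vala_inj h1
      intro i
      exact congrFun h4 i
    refine ⟨s, h2, ⟨u, hu⟩, fun k => ?_⟩
    have h3 := hsr k
    refine ⟨-r k, ?_⟩
    linear_combination -h3
  have hvalid : ∀ (s : ℕ → Fin N) (f g : R), (∀ i : Fin n, s i = a i) → Rep π s f g →
      π ^ n ∣ g * vala π a - f := by
    intro s f g hs hR
    rw [← val_ext π hs]
    exact hR.2 n
  have hlow : ((d * Real.logb N (sz b π (π ^ n) (vala π a)) : ℝ) : EReal) ≤ lamFin φ π a := by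
    refine le_iInf fun s => le_iInf fun hs => le_iInf fun f => le_iInf fun g => le_iInf fun hR => ?_
    have h1 := hvalid s f g hs hR
    have h2 := sz_le b (v := (f, g)) hR.1 h1
    refine le_trans (EReal.coe_le_coe ?_) (h.pair hN (v := (f, g)) (hunit g hR.1)).1
    have h3 := sz_pos D (π ^ n) (vala π a)
    have := Real.logb_le_logb_of_le hN1
      (by exact_mod_cast h3 : (0 : ℝ) < (sz b π (π ^ n) (vala π a) : ℝ))
      (by exact_mod_cast h2 : (sz b π (π ^ n) (vala π a) : ℝ) ≤ (sn b (f, g) : ℝ))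
    exact mul_le_mul_of_nonneg_left this hdpos.le
  obtain ⟨v, hv1, hv2, hv3⟩ := sz_spec b π (π ^ n) (vala π a)
  have hup0 : max (φ v.1) (φ v.2) ≤
      ((d * Real.logb N (sz b π (π ^ n) (vala π a)) + K : ℝ) : EReal) := by
    have := (h.pair hN (v := v) (hunit _ hv1)).2
    rwa [hv3] at this
  have hle : ∀ w : R × R, (∃ u, π ∣ u * w.2 - 1) → π ^ n ∣ w.2 * vala π a - w.1 →
      lamFin φ π a ≤ max (φ w.1) (φ w.2) := by
    intro w hw1 hw2
    obtain ⟨s, hs1, hs2⟩ := hext w hw1 hw2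
    have q1 : lamFin φ π a ≤ lam φ π s := iInf_le_of_le s (iInf_le_of_le hs1 le_rfl)
    have q2 : lam φ π s ≤ max (φ w.1) (φ w.2) :=
      iInf_le_of_le w.1 (iInf_le_of_le w.2 (iInf_le_of_le hs2 le_rfl))
    exact q1.trans q2
  refine ⟨hlow, (hle v hv1 hv2).trans hup0, ?_⟩
  -- a minimiser
  obtain ⟨B, hB⟩ : ∃ B : ℕ, sn b v ≤ B ∧
      d * Real.logb N (sz b π (π ^ n) (vala π a)) + K < d * Real.logb N (B + 1) := by
    have h1 : Filter.Tendsto (fun x : ℕ => (d : ℝ) * Real.logb N ((x : ℝ) + 1)) Filter.atTop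
        Filter.atTop := by
      apply Filter.Tendsto.const_mul_atTop hdpos
      apply (Real.tendsto_logb_atTop hN1).comp
      exact Filter.tendsto_atTop_add_const_right _ _ tendsto_natCast_atTop_atTop
    obtain ⟨B, hB1, hB2⟩ := ((h1.eventually_gt_atTop
      (d * Real.logb N (sz b π (π ^ n) (vala π a)) + K)).and
        (Filter.eventually_ge_atTop (sn b v))).exists
    exact ⟨B, hB2, hB1⟩
  set Q : Set (R × R) := {w | sn b w ≤ B ∧ (∃ u, π ∣ u * w.2 - 1) ∧
    π ^ n ∣ w.2 * vala π a - w.1} with hQ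
  have hQf : Q.Finite := (finite_sn b B).subset fun w hw => hw.1
  obtain ⟨w, hwQ, hwmin⟩ := Set.exists_min_image Q (fun w => max (φ w.1) (φ w.2)) hQf
    ⟨v, hB.1, hv1, hv2⟩
  obtain ⟨s, hs1, hs2⟩ := hext w hwQ.2.1 hwQ.2.2
  have hmin : ∀ w' : R × R, (∃ u, π ∣ u * w'.2 - 1) → π ^ n ∣ w'.2 * vala π a - w'.1 →
      max (φ w.1) (φ w.2) ≤ max (φ w'.1) (φ w'.2) := by
    intro w' h1 h2
    by_cases h3 : sn b w' ≤ B
    · exact hwmin w' ⟨h3, h1, h2⟩
    · push Not at h3
      have h4 := hwmin v ⟨hB.1, hv1, hv2⟩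
      refine (h4.trans hup0).trans (le_trans (EReal.coe_le_coe ?_)
        (h.pair hN (v := w') (hunit _ h1)).1)
      refine hB.2.le.trans (mul_le_mul_of_nonneg_left ?_ hdpos.le)
      apply Real.logb_le_logb_of_le hN1 (by positivity)
      exact_mod_cast h3
  have e1 : lam φ π s = max (φ w.1) (φ w.2) := by
    apply le_antisymm
    · exact iInf_le_of_le w.1 (iInf_le_of_le w.2 (iInf_le_of_le hs2 le_rfl))
    · refine le_iInf fun f => le_iInf fun g => le_iInf fun hR => ?_
      exact hmin (f, g) hR.1 (hvalid s f g hs1 hR)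
  have e2 : lamFin φ π a = max (φ w.1) (φ w.2) := by
    apply le_antisymm
    · exact hle w hwQ.2.1 hwQ.2.2
    · refine le_iInf fun s' => le_iInf fun hs' => le_iInf fun f => le_iInf fun g =>
        le_iInf fun hR => ?_
      exact hmin (f, g) hR.1 (hvalid s' f g hs' hR)
  exact ⟨s, w.1, w.2, hs1, hs2, by rw [e1, e2], e1⟩

/-- the average for a comparable size function -/
theorem Data.main (D : Data b π N c) {K : ℝ} {φ : R → EReal} (h : Comp b N K φ) :
    ∃ C : ℝ, ∀ n : ℕ, |Efin φ π N n - (n : ℝ) / 2| ≤ C := by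
  obtain ⟨C, hC0, hC⟩ := D.avg
  have hN := D.hN
  have hN1 : (1 : ℝ) < N := by exact_mod_cast (by omega : 1 < N)
  have hN0 : (0 : ℝ) < N := by linarith
  have hlog : 0 < Real.log N := Real.log_pos hN1
  have hdpos : (0 : ℝ) < d := by exact_mod_cast D.hd
  refine ⟨d * C / Real.log N + |K|, fun n => ?_⟩
  obtain ⟨h1, h2⟩ := hC n
  have hNn : (0 : ℝ) < (N : ℝ) ^ n := by positivity
  set Tsum := ∑ a : Fin n → Fin N, Real.log (sz b π (π ^ n) (vala π a)) with hTsum
  have hb : ∀ a : Fin n → Fin N, d / Real.log N * Real.log (sz b π (π ^ n) (vala π a)) ≤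
      (lamFin φ π a).toReal ∧ (lamFin φ π a).toReal ≤
        d / Real.log N * Real.log (sz b π (π ^ n) (vala π a)) + K := by
    intro a
    obtain ⟨h3, h4, -⟩ := D.lamFin_bounds h n a
    have hbot : lamFin φ π a ≠ ⊥ := by
      intro hb
      rw [hb, le_bot_iff] at h3
      exact EReal.coe_ne_bot _ h3
    have htop : lamFin φ π a ≠ ⊤ := by
      intro hb
      rw [hb, top_le_iff] at h4
      exact EReal.coe_ne_top _ h4
    rw [← EReal.coe_toReal htop hbot, EReal.coe_le_coe_iff] at h3 h4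
    have e : ∀ x : ℝ, d / Real.log N * Real.log x = d * Real.logb N x := by
      intro x
      unfold Real.logb
      ring
    rw [e]
    exact ⟨h3, h4⟩
  have hs1 : d / Real.log N * Tsum ≤ ∑ a : Fin n → Fin N, (lamFin φ π a).toReal := by
    rw [hTsum, mul_sum]
    exact sum_le_sum fun a _ => (hb a).1
  have hs2 : ∑ a : Fin n → Fin N, (lamFin φ π a).toReal ≤
      d / Real.log N * Tsum + (N : ℝ) ^ n * |K| := by
    have h3 : ∑ a : Fin n → Fin N, (lamFin φ π a).toReal ≤
        ∑ a : Fin n → Fin N, (d / Real.log N * Real.log (sz b π (π ^ n) (vala π a)) + |K|) :=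
      sum_le_sum fun a _ => (hb a).2.trans (by have := le_abs_self K; linarith)
    rw [sum_add_distrib, ← mul_sum, sum_const, card_univ, Fintype.card_fun, Fintype.card_fin,
      Fintype.card_fin, nsmul_eq_mul] at h3
    push_cast at h3
    exact h3
  have hf : 0 < d / Real.log N := by positivity
  have e1 : d / Real.log N * ((N : ℝ) ^ n * (n * Real.log N / (2 * d) - C)) =
      (N : ℝ) ^ n * (n / 2 - d * C / Real.log N) := by
    field_simp
  have e2 : d / Real.log N * ((N : ℝ) ^ n * (n * Real.log N / (2 * d) + C)) =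
      (N : ℝ) ^ n * (n / 2 + d * C / Real.log N) := by
    field_simp
  have l1 : (N : ℝ) ^ n * (n / 2 - d * C / Real.log N) ≤
      ∑ a : Fin n → Fin N, (lamFin φ π a).toReal := by
    rw [← e1]
    exact (mul_le_mul_of_nonneg_left h1 hf.le).trans hs1
  have l2 : ∑ a : Fin n → Fin N, (lamFin φ π a).toReal ≤
      (N : ℝ) ^ n * (n / 2 + d * C / Real.log N + |K|) := by
    refine hs2.trans ?_
    have := mul_le_mul_of_nonneg_left h2 hf.le
    rw [e2] at this
    linarith
  unfold Efin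
  have l1' : (n : ℝ) / 2 - d * C / Real.log N ≤
      (∑ a : Fin n → Fin N, (lamFin φ π a).toReal) / (N : ℝ) ^ n := by
    rw [le_div_iff₀ hNn]
    linarith
  have l2' : (∑ a : Fin n → Fin N, (lamFin φ π a).toReal) / (N : ℝ) ^ n ≤
      (n : ℝ) / 2 + d * C / Real.log N + |K| := by
    rw [div_le_iff₀ hNn]
    linarith
  have hK := abs_nonneg K
  rw [abs_le]
  constructor <;> linarith

end

end Pool.Agent.Y540.Pia
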