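import Mathlib
import Pool.Agent.Y540.PiaDefs
import Pool.Agent.Y540.PiaG

/-!
The two size functions of the problem.
-/

set_option autoImplicit false

namespace Pool.Agent.Y540.Pia

open Finset Module

section
variable {R : Type} [CommRing R]

theorem exists_nm {d : ℕ} (b : Basis (Fin d) ℤ R) {x : R} (hx : x ≠ 0) :
    ∃ i : Fin d, b.repr x i ≠ 0 ∧ (b.repr x i).natAbs = nm b x := by
  have h1 := nm_pos b hx
  have hne : (univ : Finset (Fin d)).Nonempty := by
    by_contra h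
    rw [not_nonempty_iff_eq_empty] at h
    unfold nm at h1
    rw [h] at h1
    simp at h1
  obtain ⟨i, -, hi⟩ := exists_mem_eq_sup univ hne (fun i => (b.repr x i).natAbs)
  refine ⟨i, ?_, hi.symm⟩
  intro h
  unfold nm at h1
  rw [hi, h] at h1
  simp at h1

theorem comp2 {d : ℕ} (b : Basis (Fin d) ℤ R) {N : ℕ} (hN : 2 ≤ N) :
    Comp b N d (phi2 b N) := by
  have hN1 : (1 : ℝ) < N := by exact_mod_cast (by omega : 1 < N)
  refine ⟨?_, fun x hx => ⟨?_, ?_⟩⟩
  · unfold phi2
    simp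
  · obtain ⟨i, h1, h2⟩ := exists_nm b hx
    unfold phi2
    refine le_trans (EReal.coe_le_coe ?_) (le_iSup_of_le i (le_iSup_of_le h1 le_rfl))
    have e : |(b.repr x i : ℝ)| = (nm b x : ℝ) := by
      rw [← h2, Nat.cast_natAbs]
      simp
    rw [e]
    have : (0 : ℝ) ≤ ((i : ℕ) : ℝ) := Nat.cast_nonneg _
    linarith
  · unfold phi2
    refine iSup_le fun i => iSup_le fun hi => EReal.coe_le_coe ?_
    have h1 := le_nm b x i
    have h2 : |(b.repr x i : ℝ)| = ((b.repr x i).natAbs : ℝ) := by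
      rw [Nat.cast_natAbs]
      simp
    have h3 : (0 : ℝ) < ((b.repr x i).natAbs : ℝ) := by
      exact_mod_cast Int.natAbs_pos.2 hi
    have h4 := Real.logb_le_logb_of_le hN1 h3
      (by exact_mod_cast h1 : ((b.repr x i).natAbs : ℝ) ≤ (nm b x : ℝ))
    rw [h2]
    have h5 := mul_le_mul_of_nonneg_left h4 (Nat.cast_nonneg d : (0 : ℝ) ≤ (d : ℝ))
    have h6 : ((i : ℕ) : ℝ) ≤ d := by exact_mod_cast i.2.le
    linarith

theorem comp1 (b : Basis (Fin 2) ℤ R) {N : ℕ} (hN : 2 ≤ N) :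
    Comp b N (Real.logb N (1 + N)) (phi1 b N) := by
  have hN1 : (1 : ℝ) < N := by exact_mod_cast (by omega : 1 < N)
  refine ⟨?_, fun x hx => ?_⟩
  · unfold phi1
    simp
  · have h0 := nm_pos b hx
    have hM : (0 : ℝ) < (nm b x : ℝ) := by exact_mod_cast h0
    have habs : ∀ i, (b.repr x i : ℝ) ^ 2 = ((b.repr x i).natAbs : ℝ) ^ 2 := by
      intro i
      rw [Nat.cast_natAbs]
      simp
    have hle : ∀ i, (b.repr x i : ℝ) ^ 2 ≤ (nm b x : ℝ) ^ 2 := by
      intro i
      rw [habs]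
      have h1 := le_nm b x i
      have h2 : ((b.repr x i).natAbs : ℝ) ≤ (nm b x : ℝ) := by exact_mod_cast h1
      exact pow_le_pow_left₀ (Nat.cast_nonneg _) h2 2
    have hge : (nm b x : ℝ) ^ 2 ≤ (b.repr x 0 : ℝ) ^ 2 + N * (b.repr x 1 : ℝ) ^ 2 := by
      obtain ⟨i, -, h2⟩ := exists_nm b hx
      have h3 : (nm b x : ℝ) ^ 2 = (b.repr x i : ℝ) ^ 2 := by rw [habs, h2]
      rw [h3]
      have p0 := sq_nonneg (b.repr x 0 : ℝ)
      have p1 := sq_nonneg (b.repr x 1 : ℝ)
      fin_cases i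
      · simp only [Fin.zero_eta]
        nlinarith
      · simp only [Fin.mk_one]
        nlinarith
    have hle2 : (b.repr x 0 : ℝ) ^ 2 + N * (b.repr x 1 : ℝ) ^ 2 ≤ (1 + N) * (nm b x : ℝ) ^ 2 := by
      have q0 := hle 0
      have q1 := hle 1
      nlinarith
    have e1 : (2 : ℕ) * Real.logb N (nm b x) = Real.logb N ((nm b x : ℝ) ^ 2) := by
      rw [Real.logb_pow]
    unfold phi1
    rw [if_neg hx]
    constructor
    · apply EReal.coe_le_coe
      rw [e1]
      exact Real.logb_le_logb_of_le hN1 (by positivity) hge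
    · apply EReal.coe_le_coe
      have e2 : Real.logb N ((nm b x : ℝ) ^ 2) + Real.logb N (1 + N) =
          Real.logb N ((1 + N) * (nm b x : ℝ) ^ 2) := by
        rw [Real.logb_mul (by positivity) (by positivity)]
        ring
      rw [e1, e2]
      have p3 : (0 : ℝ) < (nm b x : ℝ) ^ 2 := by positivity
      exact Real.logb_le_logb_of_le hN1 (lt_of_lt_of_le p3 hge) hle2

end

end Pool.Agent.Y540.Pia
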